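import Pool.Agent.helper74.VQ.SpecC
import Pool.Agent.helper40.VQ.VCD
import Pool.Agent.helper18.VQ.VLP
import Pool.Agent.helper62.QU.All

set_option autoImplicit false

open scoped MatrixGroups ContDiff Topology UpperHalfPlane ComplexConjugate ENNReal
open UpperHalfPlane MeasureTheory Filter Set

namespace Pool.Agent.VQ

open Pool.Agent.RS

theorem VBO_det (g : SL(2, ℝ)) : g.1 0 0 * g.1 1 1 - g.1 0 1 * g.1 1 0 = 1 := by
  have h := g.2
  rwa [Matrix.det_fin_two] at h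

theorem VBO_tt (g : SL(2, ℝ)) : QU.tt (g • I) I = ((g.1 0 0 - g.1 1 1) ^ 2 + (g.1 0 1 + g.1 1 0) ^ 2) / 2 := by
  set a := g.1 0 0 with ha
  set b := g.1 0 1 with hb
  set c := g.1 1 0 with hc
  set d := g.1 1 1 with hd
  have hdet : a * d - b * c = 1 := VBO_det g
  have hz := VCD_coe g I
  rw [← ha, ← hb, ← hc, ← hd] at hz
  have h0 := VLP_moe a b c d hdet ((I : ℍ) : ℂ) (I : ℍ).im_pos
  obtain ⟨hD, him⟩ := h0
  rw [← hz] at him
  have hn : Complex.normSq ((c : ℂ) * ((I : ℍ) : ℂ) + d) = c ^ 2 + d ^ 2 := by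
    rw [Complex.normSq_apply]
    simp
    ring
  have hnp : 0 < c ^ 2 + d ^ 2 := by
    rw [← hn]
    exact Complex.normSq_pos.2 hD
  have him' : (g • I : ℍ).im = 1 / (c ^ 2 + d ^ 2) := by
    have h1 : (((g • I : ℍ) : ℂ)).im = (g • I : ℍ).im := rfl
    rw [← h1, him, hn]
    simp
  have hsub : ((g • I : ℍ) : ℂ) - ((I : ℍ) : ℂ) = (((b + c : ℝ) : ℂ) + ((a - d : ℝ) : ℂ) * Complex.I) / ((c : ℂ) * ((I : ℍ) : ℂ) + d) := by
    rw [hz, eq_div_iff hD, sub_mul, div_mul_cancel₀ _ hD, UpperHalfPlane.coe_I]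
    push_cast
    have := Complex.I_mul_I
    linear_combination (-(c : ℂ)) * this
  have hnum : Complex.normSq (((b + c : ℝ) : ℂ) + ((a - d : ℝ) : ℂ) * Complex.I) = (a - d) ^ 2 + (b + c) ^ 2 := by
    rw [Complex.normSq_apply]
    simp
    ring
  unfold QU.tt
  rw [hsub, ← Complex.normSq_eq_norm_sq, Complex.normSq_div, hn, hnum, him', UpperHalfPlane.I_im]
  field_simp

theorem VBO_bd {s : ℝ} (hs : 0 < s) (hs1 : s ≤ 1 / 2) {g : SL(2, ℝ)} (hg : g ∈ Bo s) :
    QU.tt (g • I) I ≤ 4 * s ^ 2 ∧ (g.1 1 0) ^ 2 ≤ s ^ 2 ∧ 1 / 4 ≤ (g.1 1 1) ^ 2 := by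
  rw [VBO_tt]
  rcases hg with h | h
  · have h00 := abs_lt.1 (h 0 0)
    have h01 := abs_lt.1 (h 0 1)
    have h10 := abs_lt.1 (h 1 0)
    have h11 := abs_lt.1 (h 1 1)
    have e00 : (1 : Matrix (Fin 2) (Fin 2) ℝ) 0 0 = 1 := rfl
    have e01 : (1 : Matrix (Fin 2) (Fin 2) ℝ) 0 1 = 0 := rfl
    have e10 : (1 : Matrix (Fin 2) (Fin 2) ℝ) 1 0 = 0 := rfl
    have e11 : (1 : Matrix (Fin 2) (Fin 2) ℝ) 1 1 = 1 := rfl
    rw [e00] at h00
    rw [e01, sub_zero] at h01
    rw [e10, sub_zero] at h10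
    rw [e11] at h11
    have h1 : (g.1 0 0 - g.1 1 1) ^ 2 ≤ (2 * s) ^ 2 := sq_le_sq' (by linarith) (by linarith)
    have h2 : (g.1 0 1 + g.1 1 0) ^ 2 ≤ (2 * s) ^ 2 := sq_le_sq' (by linarith) (by linarith)
    refine ⟨by nlinarith, sq_le_sq' h10.1.le h10.2.le, ?_⟩
    have h3 : 1 / 2 ≤ g.1 1 1 := by linarith
    nlinarith
  · have h00 := abs_lt.1 (h 0 0)
    have h01 := abs_lt.1 (h 0 1)
    have h10 := abs_lt.1 (h 1 0)
    have h11 := abs_lt.1 (h 1 1)
    have e00 : (1 : Matrix (Fin 2) (Fin 2) ℝ) 0 0 = 1 := rfl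
    have e01 : (1 : Matrix (Fin 2) (Fin 2) ℝ) 0 1 = 0 := rfl
    have e10 : (1 : Matrix (Fin 2) (Fin 2) ℝ) 1 0 = 0 := rfl
    have e11 : (1 : Matrix (Fin 2) (Fin 2) ℝ) 1 1 = 1 := rfl
    rw [e00] at h00
    rw [e01, add_zero] at h01
    rw [e10, add_zero] at h10
    rw [e11] at h11
    have h1 : (g.1 0 0 - g.1 1 1) ^ 2 ≤ (2 * s) ^ 2 := sq_le_sq' (by linarith) (by linarith)
    have h2 : (g.1 0 1 + g.1 1 0) ^ 2 ≤ (2 * s) ^ 2 := sq_le_sq' (by linarith) (by linarith)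
    refine ⟨by nlinarith, sq_le_sq' h10.1.le h10.2.le, ?_⟩
    have h3 : g.1 1 1 ≤ -(1 / 2) := by linarith
    nlinarith

theorem VBO_dist {s : ℝ} (hs : 0 < s) {z : ℍ} (hz : QU.tt z I ≤ 4 * s ^ 2) : dist z I ≤ 3 * s := by
  have h1 : QU.tt z I = Real.cosh (dist z I) - 1 := QU.A_TTT.1 z I
  set d := dist z I with hd
  have hd0 : 0 ≤ d := dist_nonneg
  have h2 : Real.cosh d = 2 * Real.sinh (d / 2) ^ 2 + 1 := by
    have e : d = 2 * (d / 2) := by ring
    rw [e, Real.cosh_two_mul, Real.cosh_sq]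
    have e2 : 2 * (d / 2) / 2 = d / 2 := by ring
    rw [e2]
    ring
  have h3 : d / 2 ≤ Real.sinh (d / 2) := Real.self_le_sinh_iff.2 (by linarith)
  have h4 : (d / 2) ^ 2 ≤ Real.sinh (d / 2) ^ 2 := pow_le_pow_left₀ (by linarith) h3 2
  have h5 : d ^ 2 ≤ 8 * s ^ 2 := by nlinarith
  have h6 : d ^ 2 ≤ (3 * s) ^ 2 := by nlinarith
  exact le_of_sq_le_sq h6 (by linarith)

/-- the area of a small ball -/
theorem VBO_vol : ∃ c : ℝ, 0 < c ∧ ∀ T : ℝ, 0 < T → (volume : Measure ℍ) {w : ℍ | QU.tt w I ≤ T} ≤ ENNReal.ofReal (c * T) := by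
  obtain ⟨c₀, hc₀, hmas⟩ := QU.A_MAS
  obtain ⟨t1, t2, t3, t4, t5, t6, -, -⟩ := QU.A_TTT
  refine ⟨c₀ * 2, by positivity, fun T hT => ?_⟩
  let κ : ℝ → ℝ := fun t => Real.smoothTransition (2 - t / T)
  have k1 : ContDiff ℝ ∞ κ := Real.smoothTransition.contDiff.comp (contDiff_const.sub (contDiff_id.div_const T))
  have k2 : ∀ t, 2 * T ≤ t → κ t = 0 := fun t ht => Real.smoothTransition.zero_of_nonpos (by
    have : 2 ≤ t / T := (le_div_iff₀ hT).2 ht
    linarith)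
  have k3 : ∀ t, t ≤ T → κ t = 1 := fun t ht => Real.smoothTransition.one_of_one_le (by
    have : t / T ≤ 1 := (div_le_one hT).2 ht
    linarith)
  have k0 : ∀ t, 0 ≤ κ t := fun t => Real.smoothTransition.nonneg _
  have k4 : ∀ t, κ t ≤ 1 := fun t => Real.smoothTransition.le_one _
  have h1 := hmas κ (2 * T) k1 (by linarith) k2 I
  have h2 : ∫ t in (0 : ℝ)..(2 * T), κ t ≤ 2 * T := by
    have := intervalIntegral.norm_integral_le_of_norm_le_const (a := (0 : ℝ)) (b := 2 * T) (f := κ) (C := 1)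
      (fun t _ => by rw [Real.norm_of_nonneg (k0 t)]; exact k4 t)
    rw [sub_zero, abs_of_nonneg (by linarith : (0 : ℝ) ≤ 2 * T), one_mul] at this
    exact (Real.le_norm_self _).trans this
  have hcont : Continuous fun w : ℍ => κ (QU.tt I w) := k1.continuous.comp (t5.comp (by fun_prop : Continuous fun w : ℍ => ((I : ℍ), w)))
  obtain ⟨R', hR', hR2⟩ := t6 (2 * T)
  have hcs : HasCompactSupport fun w : ℍ => κ (QU.tt I w) := by
    refine HasCompactSupport.intro (isCompact_closedBall (I : ℍ) R') fun w hw => ?_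
    refine k2 _ ?_
    by_contra h
    push Not at h
    refine hw ?_
    rw [Metric.mem_closedBall, dist_comm]
    exact hR2 I w h.le
  have hint : Integrable (fun w : ℍ => κ (QU.tt I w)) (volume : Measure ℍ) := hcont.integrable_of_hasCompactSupport hcs
  have h3 : (volume : Measure ℍ) {w : ℍ | QU.tt w I ≤ T} ≤ ∫⁻ w : ℍ, ENNReal.ofReal (κ (QU.tt I w)) := by
    have hm : MeasurableSet {w : ℍ | QU.tt w I ≤ T} := by
      have : IsClosed {w : ℍ | QU.tt w I ≤ T} := isClosed_le (t5.comp (by fun_prop : Continuous fun w : ℍ => (w, (I : ℍ)))) continuous_const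
      exact this.measurableSet
    rw [← lintegral_indicator_one hm]
    refine lintegral_mono fun w => ?_
    by_cases hw : w ∈ {w : ℍ | QU.tt w I ≤ T}
    · rw [indicator_of_mem hw]
      have hw' : QU.tt I w ≤ T := by
        rw [t3]
        exact hw
      rw [k3 _ hw']
      simp
    · rw [indicator_of_notMem hw]
      exact zero_le
  refine h3.trans ?_
  rw [← ofReal_integral_eq_lintegral_ofReal hint (Eventually.of_forall fun w => k0 _), h1]
  refine ENNReal.ofReal_le_ofReal ?_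
  calc c₀ * ∫ t in (0 : ℝ)..(2 * T), κ t ≤ c₀ * (2 * T) := mul_le_mul_of_nonneg_left h2 hc₀.le
    _ = c₀ * 2 * T := by ring

/-- the angles -/
theorem VBO_th {s : ℝ} (hs : 0 < s) : (volume : Measure ℝ) ({θ : ℝ | |Real.sin θ| ≤ 2 * s} ∩ Ioc 0 (2 * Real.pi)) ≤ ENNReal.ofReal (4 * Real.pi * s) := by
  have hpi := Real.pi_pos
  have hJ : ∀ x : ℝ, 0 ≤ x → x ≤ Real.pi / 2 → |Real.sin x| ≤ 2 * s → x ≤ Real.pi * s := by
    intro x hx hx1 hx2
    have h1 := Real.mul_le_sin hx hx1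
    have h2 : 2 / Real.pi * x ≤ 2 * s := h1.trans ((le_abs_self _).trans hx2)
    rw [div_mul_eq_mul_div, div_le_iff₀ hpi] at h2
    nlinarith
  have hsub : ({θ : ℝ | |Real.sin θ| ≤ 2 * s} ∩ Ioc 0 (2 * Real.pi)) ⊆ Icc 0 (Real.pi * s) ∪ (Icc (Real.pi - Real.pi * s) (Real.pi + Real.pi * s) ∪ Icc (2 * Real.pi - Real.pi * s) (2 * Real.pi)) := by
    rintro θ ⟨h1, h2, h3⟩
    have h1' : |Real.sin θ| ≤ 2 * s := h1
    by_cases c1 : θ ≤ Real.pi / 2
    · left
      exact ⟨h2.le, hJ θ h2.le c1 h1'⟩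
    · right
      push Not at c1
      by_cases c2 : θ ≤ Real.pi
      · left
        have h5 := hJ (Real.pi - θ) (by linarith) (by linarith) (by rwa [Real.sin_pi_sub])
        exact ⟨by linarith, by nlinarith⟩
      · push Not at c2
        by_cases c3 : θ ≤ 3 * Real.pi / 2
        · left
          have h5 := hJ (θ - Real.pi) (by linarith) (by linarith) (by rwa [Real.sin_sub_pi, abs_neg])
          exact ⟨by nlinarith, by linarith⟩
        · right
          push Not at c3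
          have h5 := hJ (2 * Real.pi - θ) (by linarith) (by linarith) (by rwa [Real.sin_two_pi_sub, abs_neg])
          exact ⟨by linarith, h3⟩
  refine (measure_mono hsub).trans ((measure_union_le _ _).trans ?_)
  refine (add_le_add le_rfl (measure_union_le _ _)).trans ?_
  rw [Real.volume_Icc, Real.volume_Icc, Real.volume_Icc]
  rw [← ENNReal.ofReal_add (by nlinarith) (by nlinarith), ← ENNReal.ofReal_add (by nlinarith) (by nlinarith)]
  refine ENNReal.ofReal_le_ofReal (le_of_eq ?_)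
  ring

theorem VBO_open (s : ℝ) : IsOpen (Bo s) := by
  have he : ∀ i j, Continuous fun g : SL(2, ℝ) => g.1 i j := fun i j => (continuous_apply_apply i j).comp continuous_subtype_val
  have h1 : Bo s = (⋂ i : Fin 2, ⋂ j : Fin 2, {b : SL(2, ℝ) | |b.1 i j - (1 : Matrix (Fin 2) (Fin 2) ℝ) i j| < s}) ∪
      (⋂ i : Fin 2, ⋂ j : Fin 2, {b : SL(2, ℝ) | |b.1 i j + (1 : Matrix (Fin 2) (Fin 2) ℝ) i j| < s}) := by
    ext b
    simp only [Bo, Set.mem_ofPred_eq, mem_union, mem_iInter]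
  rw [h1]
  refine IsOpen.union ?_ ?_
  · exact isOpen_iInter_of_finite fun i => isOpen_iInter_of_finite fun j => isOpen_lt ((he i j).sub continuous_const).abs continuous_const
  · exact isOpen_iInter_of_finite fun i => isOpen_iInter_of_finite fun j => isOpen_lt ((he i j).add continuous_const).abs continuous_const

theorem VBO_in {s : ℝ} (hs : 0 < s) (hs1 : s ≤ 1 / 2) {z : ℍ} {θ : ℝ} (h : toSL2R z * kM θ ∈ Bo s) : QU.tt z I ≤ 4 * s ^ 2 ∧ |Real.sin θ| ≤ 2 * s := by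
  obtain ⟨h1, h2, h3⟩ := VBO_bd hs hs1 h
  have hI : kM θ • I = I := A_GLC.2.2.2.2.2.2.2.2.2.2.2.2.2.2.2.1 θ
  have hz : ((toSL2R z * kM θ) • I : ℍ) = z := by rw [mul_smul, hI, toSL2R_smul_I]
  rw [hz] at h1
  refine ⟨h1, ?_⟩
  set k : ℝ := 1 / Real.sqrt z.im with hk
  have e10 : (toSL2R z * kM θ).1 1 0 = -(k * Real.sin θ) := by
    show (((toSL2R z).1 * (kM θ).1) : Matrix (Fin 2) (Fin 2) ℝ) 1 0 = _
    rw [Matrix.mul_apply, Fin.sum_univ_two]
    show (0 : ℝ) * Real.cos θ + 1 / Real.sqrt z.im * (-Real.sin θ) = _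
    rw [hk]
    ring
  have e11 : (toSL2R z * kM θ).1 1 1 = k * Real.cos θ := by
    show (((toSL2R z).1 * (kM θ).1) : Matrix (Fin 2) (Fin 2) ℝ) 1 1 = _
    rw [Matrix.mul_apply, Fin.sum_univ_two]
    show (0 : ℝ) * Real.sin θ + 1 / Real.sqrt z.im * Real.cos θ = _
    rw [hk]
    ring
  rw [e10] at h2
  rw [e11] at h3
  have h4 : Real.sin θ ^ 2 + Real.cos θ ^ 2 = 1 := Real.sin_sq_add_cos_sq θ
  have h5 : 1 / 4 ≤ k ^ 2 := by nlinarith [sq_nonneg k, sq_nonneg (k * Real.sin θ)]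
  have h6 : Real.sin θ ^ 2 ≤ (2 * s) ^ 2 := by
    have h7 : k ^ 2 * Real.sin θ ^ 2 ≤ s ^ 2 := by nlinarith
    have h8 : 1 / 4 * Real.sin θ ^ 2 ≤ k ^ 2 * Real.sin θ ^ 2 := mul_le_mul_of_nonneg_right h5 (sq_nonneg _)
    nlinarith
  exact abs_le_of_sq_le_sq h6 (by linarith)

theorem VBO_proof : VBO_stmt := by
  obtain ⟨c, hc, hvol⟩ := VBO_vol
  have hgmg := A_GMG
  obtain ⟨m1, -, -, m4, -⟩ := hgmg
  set V : ℝ := ((volume : Measure ℍ) (Metric.closedBall (I : ℍ) 3)).toReal with hV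
  have hV0 : 0 ≤ V := ENNReal.toReal_nonneg
  refine ⟨3 + V + 8 * c, by linarith, fun s hs hs1 => ?_, fun s => (VBO_open s).measurableSet, fun s g hs hs1 hg => ?_, ?_⟩
  · have hm : MeasurableSet (Bo s) := (VBO_open s).measurableSet
    have hmz : MeasurableSet {w : ℍ | QU.tt w I ≤ 4 * s ^ 2} := by
      have : IsClosed {w : ℍ | QU.tt w I ≤ 4 * s ^ 2} := isClosed_le (QU.A_TTT.2.2.2.2.1.comp (by fun_prop : Continuous fun w : ℍ => (w, (I : ℍ)))) continuous_const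
      exact this.measurableSet
    have hmt : MeasurableSet {θ : ℝ | |Real.sin θ| ≤ 2 * s} := by
      have : IsClosed {θ : ℝ | |Real.sin θ| ≤ 2 * s} := isClosed_le Real.continuous_sin.abs continuous_const
      exact this.measurableSet
    have h1 : mG (Bo s) = ∫⁻ g, (Bo s).indicator 1 g ∂mG := (lintegral_indicator_one hm).symm
    rw [h1, m4 _ (measurable_one.indicator hm)]
    have h2 : ∀ z : ℍ, (ENNReal.ofReal (2 * Real.pi))⁻¹ * ∫⁻ θ in Ioc 0 (2 * Real.pi), (Bo s).indicator (1 : SL(2, ℝ) → ENNReal) (toSL2R z * kM θ) ≤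
        ({w : ℍ | QU.tt w I ≤ 4 * s ^ 2}.indicator 1 z) * ENNReal.ofReal (2 * s) := by
      intro z
      by_cases hz : z ∈ {w : ℍ | QU.tt w I ≤ 4 * s ^ 2}
      · rw [indicator_of_mem hz, Pi.one_apply, one_mul]
        have h3 : ∫⁻ θ in Ioc 0 (2 * Real.pi), (Bo s).indicator (1 : SL(2, ℝ) → ENNReal) (toSL2R z * kM θ) ≤
            ∫⁻ θ in Ioc 0 (2 * Real.pi), {θ : ℝ | |Real.sin θ| ≤ 2 * s}.indicator 1 θ := by
          refine lintegral_mono fun θ => ?_
          by_cases hb : toSL2R z * kM θ ∈ Bo s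
          · have h4 : θ ∈ {θ : ℝ | |Real.sin θ| ≤ 2 * s} := (VBO_in hs hs1 hb).2
            rw [indicator_of_mem hb, indicator_of_mem h4]
            exact le_rfl
          · rw [indicator_of_notMem hb]
            exact zero_le
        have h5 : ∫⁻ θ in Ioc 0 (2 * Real.pi), {θ : ℝ | |Real.sin θ| ≤ 2 * s}.indicator 1 θ ≤ ENNReal.ofReal (4 * Real.pi * s) := by
          rw [lintegral_indicator_one hmt, Measure.restrict_apply hmt]
          exact VBO_th hs
        refine (mul_le_mul' le_rfl (h3.trans h5)).trans ?_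
        rw [← ENNReal.ofReal_inv_of_pos (by positivity), ← ENNReal.ofReal_mul (by positivity)]
        refine ENNReal.ofReal_le_ofReal (le_of_eq ?_)
        have hpi := Real.pi_pos
        field_simp
        ring
      · rw [indicator_of_notMem hz, zero_mul]
        have h3 : ∀ θ : ℝ, (Bo s).indicator (1 : SL(2, ℝ) → ENNReal) (toSL2R z * kM θ) = 0 := fun θ => by
          refine indicator_of_notMem (fun hb => hz (VBO_in hs hs1 hb).1) _
        simp only [h3]
        simp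
    refine (lintegral_mono h2).trans ?_
    rw [lintegral_mul_const _ (measurable_one.indicator hmz), lintegral_indicator_one hmz]
    refine (mul_le_mul' (hvol (4 * s ^ 2) (by positivity)) le_rfl).trans ?_
    rw [← ENNReal.ofReal_mul (by positivity)]
    refine ENNReal.ofReal_le_ofReal ?_
    have h9 : 0 ≤ (3 + V) * s ^ 3 := by positivity
    nlinarith
  · have h1 := VBO_dist hs (VBO_bd hs hs1 hg).1
    nlinarith
  · have h1 : {g : SL(2, ℝ) | dist (g • I : ℍ) I ≤ 3} = dG (Metric.closedBall (I : ℍ) 3) := by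
      ext g
      exact Iff.rfl
    rw [h1, (m1 _ Metric.isClosed_closedBall.measurableSet).2]
    have h2 : (volume : Measure ℍ) (Metric.closedBall (I : ℍ) 3) ≠ ⊤ := (isCompact_closedBall (I : ℍ) 3).measure_lt_top.ne
    rw [← ENNReal.ofReal_toReal h2]
    exact ENNReal.ofReal_le_ofReal (by linarith)

end Pool.Agent.VQ
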