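import Pool.Agent.helper21.VQ.VPRa

set_option autoImplicit false

open scoped MatrixGroups ContDiff Topology UpperHalfPlane ComplexConjugate ENNReal
open UpperHalfPlane MeasureTheory Filter Set

namespace Pool.Agent.VQ

open Pool.Agent.RS

noncomputable section

/-- the parameters of the beam -/
def VPR_e (D : Dyn) (y : (SL(2, ℝ) × ℝ) × ℝ) : Fin 10 → ℂ :=
  ![D.a y.1.2 y.2 y.1.1, ((D.S y.1.2 y.2 y.1.1 : ℝ) : ℂ), ((rho D.U y.1.2 (D.fl y.1.2 y.2 y.1.1) : ℝ) : ℂ), D.M y.1.2 y.2 y.1.1 0 0,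
    D.M y.1.2 y.2 y.1.1 0 1 + D.M y.1.2 y.2 y.1.1 1 0, D.M y.1.2 y.2 y.1.1 1 1,
    ((((D.fl y.1.2 y.2 y.1.1)⁻¹).1 0 0 : ℝ) : ℂ), ((((D.fl y.1.2 y.2 y.1.1)⁻¹).1 0 1 : ℝ) : ℂ),
    ((((D.fl y.1.2 y.2 y.1.1)⁻¹).1 1 0 : ℝ) : ℂ), ((((D.fl y.1.2 y.2 y.1.1)⁻¹).1 1 1 : ℝ) : ℂ)]

theorem VPR_pv (D : Dyn) (ch : ℝ → ℝ) (ζ ζ1 R t : ℝ) (p : SL(2, ℝ) × ℝ) (v : ℂ) :
    pv D ch ζ ζ1 R t p v = VPR_F ch (cR ch ζ R) (R ^ (1 - 2 * ζ1)) R (VPR_e D (p, t), v) := by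
  have h0 : VPR_e D (p, t) 0 = D.a p.2 t p.1 := rfl
  have h1 : VPR_e D (p, t) 1 = ((D.S p.2 t p.1 : ℝ) : ℂ) := rfl
  have h2 : VPR_e D (p, t) 2 = ((rho D.U p.2 (D.fl p.2 t p.1) : ℝ) : ℂ) := rfl
  have h3 : VPR_e D (p, t) 3 = D.M p.2 t p.1 0 0 := rfl
  have h4 : VPR_e D (p, t) 4 = D.M p.2 t p.1 0 1 + D.M p.2 t p.1 1 0 := rfl
  have h5 : VPR_e D (p, t) 5 = D.M p.2 t p.1 1 1 := rfl
  unfold pv VPR_F qf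
  simp only [h0, h1, h2, h3, h4, h5]
  rw [Complex.ofReal_add, Complex.ofReal_mul (rho D.U p.2 (D.fl p.2 t p.1)) v.re]

theorem VPR_mz (D : Dyn) (y : (SL(2, ℝ) × ℝ) × ℝ) (z : ℍ) : VPR_m (VPR_e D y, (z : ℂ)) = (((D.fl y.1.2 y.2 y.1.1)⁻¹ • z : ℍ) : ℂ) := by
  rw [VCD_coe]
  rfl

theorem VPR_wz (D : Dyn) (y : (SL(2, ℝ) × ℝ) × ℝ) (z : ℍ) : VPR_w (VPR_e D y, (z : ℂ)) = cd ((D.fl y.1.2 y.2 y.1.1)⁻¹ • z) := by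
  unfold VPR_w cd
  rw [VPR_mz]

theorem VPR_dom (D : Dyn) (y : (SL(2, ℝ) × ℝ) × ℝ) (z : ℍ) : (VPR_e D y, (z : ℂ)) ∈ VPR_O := by
  refine ⟨VCD_sl (D.fl y.1.2 y.2 y.1.1)⁻¹ (z : ℂ) z.im_pos, ?_⟩
  rw [VPR_mz]
  exact VCD_neI _ (UpperHalfPlane.im_pos _)

theorem VPR_psi (D : Dyn) (ch : ℝ → ℝ) (ζ ζ1 R t : ℝ) (p : SL(2, ℝ) × ℝ) (z : ℍ) :
    psi D ch ζ ζ1 R t p z = VPR_G ch (cR ch ζ R) (R ^ (1 - 2 * ζ1)) R (VPR_e D (p, t), (z : ℂ)) := by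
  unfold psi VPR_G
  rw [VPR_pv, VPR_wz]

theorem VPR_onC (D : Dyn) (ch : ℝ → ℝ) (ζ ζ1 R t : ℝ) (p : SL(2, ℝ) × ℝ) (z : ℍ) :
    QU.onC (psi D ch ζ ζ1 R t p) =ᶠ[𝓝 (z : ℂ)] fun w => VPR_G ch (cR ch ζ R) (R ^ (1 - 2 * ζ1)) R (VPR_e D (p, t), w) := by
  have h1 : {w : ℂ | 0 < w.im} ∈ 𝓝 (z : ℂ) := (isOpen_lt continuous_const Complex.continuous_im).mem_nhds z.im_pos
  filter_upwards [h1] with w hw
  unfold QU.onC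
  rw [VPR_psi, ofComplex_apply_of_im_pos hw]

theorem VPR_ent (i j : Fin 2) : Continuous fun g : SL(2, ℝ) => g.1 i j :=
  (continuous_apply_apply i j).comp continuous_subtype_val

theorem VPR_enti (i j : Fin 2) : Continuous fun g : SL(2, ℝ) => (g⁻¹).1 i j :=
  (VPR_ent i j).comp continuous_inv

theorem VPR_cpo {X Y Z : Type} [TopologicalSpace X] [TopologicalSpace Y] [TopologicalSpace Z] (f : Y → Z) (g : X → Y) (s : Set X) (t : Set Y)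
    (hf : ContinuousOn f t) (hg : ContinuousOn g s) (hm : ∀ x ∈ s, g x ∈ t) : ContinuousOn (fun x => f (g x)) s :=
  hf.comp hg hm

theorem VPR_cpc {X Y Z : Type} [TopologicalSpace X] [TopologicalSpace Y] [TopologicalSpace Z] (f : Y → Z) (g : X → Y) (s : Set X)
    (hf : Continuous f) (hg : ContinuousOn g s) : ContinuousOn (fun x => f (g x)) s :=
  hf.comp_continuousOn hg

theorem VPR_fl {Γ : Subgroup SL(2, ℝ)} {δ : ℝ} {B : ℕ → ℝ} {D : Dyn} (h : OKD Γ δ B D) :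
    ContinuousOn (fun y : (SL(2, ℝ) × ℝ) × ℝ => D.fl y.1.2 y.2 y.1.1) {y | |y.1.2| ≤ 1 / 8} := by
  have h1 : Continuous fun y : (SL(2, ℝ) × ℝ) × ℝ => ((y.1.2, y.2, y.1.1) : ℝ × ℝ × SL(2, ℝ)) := by fun_prop
  exact h.cfl.comp h1.continuousOn (fun y hy => hy)

theorem VPR_Y {Γ : Subgroup SL(2, ℝ)} {δ : ℝ} {B : ℕ → ℝ} {D : Dyn} (h : OKD Γ δ B D) (i j : Fin 2) :
    ContinuousOn (fun y : (SL(2, ℝ) × ℝ) × ℝ => D.Y y.1.2 y.2 y.1.1 i j) {y | |y.1.2| ≤ 1 / 8} := by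
  have h1 : Continuous fun y : (SL(2, ℝ) × ℝ) × ℝ => ((y.1.2, y.2, y.1.1) : ℝ × ℝ × SL(2, ℝ)) := by fun_prop
  exact (h.cY i j).comp h1.continuousOn (fun y hy => hy)

theorem VPR_P {Γ : Subgroup SL(2, ℝ)} {δ : ℝ} {B : ℕ → ℝ} {D : Dyn} (h : OKD Γ δ B D) (i j : Fin 2) :
    ContinuousOn (fun y : (SL(2, ℝ) × ℝ) × ℝ => D.P y.1.2 y.2 y.1.1 i j) {y | |y.1.2| ≤ 1 / 8} := by
  have h1 : Continuous fun y : (SL(2, ℝ) × ℝ) × ℝ => ((y.1.2, y.2, y.1.1) : ℝ × ℝ × SL(2, ℝ)) := by fun_prop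
  exact (h.cP i j).comp h1.continuousOn (fun y hy => hy)

theorem VPR_S {Γ : Subgroup SL(2, ℝ)} {δ : ℝ} {B : ℕ → ℝ} {D : Dyn} (h : OKD Γ δ B D) :
    ContinuousOn (fun y : (SL(2, ℝ) × ℝ) × ℝ => D.S y.1.2 y.2 y.1.1) {y | |y.1.2| ≤ 1 / 8} := by
  have h1 : Continuous fun y : (SL(2, ℝ) × ℝ) × ℝ => ((y.1.2, y.2, y.1.1) : ℝ × ℝ × SL(2, ℝ)) := by fun_prop
  exact h.cS.comp h1.continuousOn (fun y hy => hy)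

theorem VPR_a {Γ : Subgroup SL(2, ℝ)} {δ : ℝ} {B : ℕ → ℝ} {D : Dyn} (h : OKD Γ δ B D) :
    ContinuousOn (fun y : (SL(2, ℝ) × ℝ) × ℝ => D.a y.1.2 y.2 y.1.1) {y | |y.1.2| ≤ 1 / 8} := by
  have h1 : Continuous fun y : (SL(2, ℝ) × ℝ) × ℝ => ((y.1.2, y.2, y.1.1) : ℝ × ℝ × SL(2, ℝ)) := by fun_prop
  exact h.ca.comp h1.continuousOn (fun y hy => hy)

/-- the inverse of a `2 × 2` matrix -/
theorem VPR_mul {X : Type} [TopologicalSpace X] {s : Set X} {A B : X → Matrix (Fin 2) (Fin 2) ℂ} (hA : ∀ i j, ContinuousOn (fun x => A x i j) s)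
    (hB : ∀ i j, ContinuousOn (fun x => B x i j) s) (i j : Fin 2) : ContinuousOn (fun x => (A x * B x) i j) s := by
  simp only [Matrix.mul_apply, Fin.sum_univ_two]
  exact ((hA i 0).mul (hB 0 j)).add ((hA i 1).mul (hB 1 j))

theorem VPR_inv {X : Type} [TopologicalSpace X] {s : Set X} {A : X → Matrix (Fin 2) (Fin 2) ℂ} (hA : ∀ i j, ContinuousOn (fun x => A x i j) s)
    (hd : ∀ x ∈ s, (A x).det ≠ 0) (i j : Fin 2) : ContinuousOn (fun x => (A x)⁻¹ i j) s := by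
  have h1 : ContinuousOn (fun x => ((A x).det)⁻¹) s := by
    refine ContinuousOn.inv₀ ?_ hd
    simp only [Matrix.det_fin_two]
    exact ((hA 0 0).mul (hA 1 1)).sub ((hA 0 1).mul (hA 1 0))
  have h2 : ∀ x, (A x)⁻¹ = ((A x).det)⁻¹ • !![A x 1 1, -(A x 0 1); -(A x 1 0), A x 0 0] := fun x => by
    rw [Matrix.inv_def, Ring.inverse_eq_inv', Matrix.adjugate_fin_two]
  simp only [h2, Matrix.smul_apply, smul_eq_mul]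
  refine h1.mul ?_
  fin_cases i <;> fin_cases j
  · exact hA 1 1
  · exact (hA 0 1).neg
  · exact (hA 1 0).neg
  · exact hA 0 0

theorem VPR_M {Γ : Subgroup SL(2, ℝ)} {δ : ℝ} {B : ℕ → ℝ} {D : Dyn} (hVYA : VYA_stmt) (h : OKD Γ δ B D) (hδ : δ ≤ 1 / 10) (i j : Fin 2) :
    ContinuousOn (fun y : (SL(2, ℝ) × ℝ) × ℝ => D.M y.1.2 y.2 y.1.1 i j) {y | |y.1.2| ≤ 1 / 8} := by
  unfold Dyn.M
  exact VPR_mul (VPR_P h) (VPR_inv (VPR_Y h) (fun y hy => (hVYA Γ δ B D h hδ y.1.2 y.2 y.1.1 hy).1)) i j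

theorem VPR_rho {Γ : Subgroup SL(2, ℝ)} {δ : ℝ} {B : ℕ → ℝ} {D : Dyn} (hVUB : VUB_stmt) (h : OKD Γ δ B D) (hδ : δ ≤ 1 / 10) :
    ContinuousOn (fun y : (SL(2, ℝ) × ℝ) × ℝ => rho D.U y.1.2 (D.fl y.1.2 y.2 y.1.1)) {y | |y.1.2| ≤ 1 / 8} := by
  have h1 := (hVUB Γ δ B D.U h.pot hδ).2.2.2.1.2.2.2.1
  have h2 : Continuous fun y : (SL(2, ℝ) × ℝ) × ℝ => y.1.2 := by fun_prop
  exact VPR_cpc (fun p : ℝ × SL(2, ℝ) => rho D.U p.1 p.2) (fun y : (SL(2, ℝ) × ℝ) × ℝ => (y.1.2, D.fl y.1.2 y.2 y.1.1)) _ h1 (h2.continuousOn.prodMk (VPR_fl h))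

theorem VPR_kap {Γ : Subgroup SL(2, ℝ)} {δ : ℝ} {B : ℕ → ℝ} {D : Dyn} (hVUB : VUB_stmt) (h : OKD Γ δ B D) (hδ : δ ≤ 1 / 10) :
    ContinuousOn (fun y : (SL(2, ℝ) × ℝ) × ℝ => kap D.U y.1.2 (D.fl y.1.2 y.2 y.1.1)) {y | |y.1.2| ≤ 1 / 8} := by
  have h1 := (hVUB Γ δ B D.U h.pot hδ).2.2.2.1.2.2.2.2
  have h2 : Continuous fun y : (SL(2, ℝ) × ℝ) × ℝ => y.1.2 := by fun_prop
  exact VPR_cpo (fun p : ℝ × SL(2, ℝ) => kap D.U p.1 p.2) (fun y : (SL(2, ℝ) × ℝ) × ℝ => (y.1.2, D.fl y.1.2 y.2 y.1.1)) _ {p | |p.1| ≤ 1 / 8} h1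
    (h2.continuousOn.prodMk (VPR_fl h)) (fun y hy => hy)

theorem VPR_ec {Γ : Subgroup SL(2, ℝ)} {δ : ℝ} {B : ℕ → ℝ} {D : Dyn} (hVUB : VUB_stmt) (hVYA : VYA_stmt) (h : OKD Γ δ B D) (hδ : δ ≤ 1 / 10) :
    ContinuousOn (VPR_e D) {y | |y.1.2| ≤ 1 / 8} := by
  have hof : ∀ (f : (SL(2, ℝ) × ℝ) × ℝ → ℝ), ContinuousOn f {y | |y.1.2| ≤ 1 / 8} → ContinuousOn (fun x => ((f x : ℝ) : ℂ)) {y | |y.1.2| ≤ 1 / 8} :=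
    fun f hf => Complex.continuous_ofReal.comp_continuousOn hf
  have hi : ∀ i j, ContinuousOn (fun y : (SL(2, ℝ) × ℝ) × ℝ => ((((D.fl y.1.2 y.2 y.1.1)⁻¹).1 i j : ℝ) : ℂ)) {y | |y.1.2| ≤ 1 / 8} :=
    fun i j => hof _ (VPR_cpc (fun g : SL(2, ℝ) => (g⁻¹).1 i j) (fun y : (SL(2, ℝ) × ℝ) × ℝ => D.fl y.1.2 y.2 y.1.1) _ (VPR_enti i j) (VPR_fl h))
  have hM := VPR_M hVYA h hδ
  have hS := hof _ (VPR_S h)
  have hr := hof _ (VPR_rho hVUB h hδ)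
  have ha := VPR_a h
  refine continuousOn_pi.2 fun i => ?_
  fin_cases i
  · exact ha
  · exact hS
  · exact hr
  · exact hM 0 0
  · exact (hM 0 1).add (hM 1 0)
  · exact hM 1 1
  · exact hi 0 0
  · exact hi 0 1
  · exact hi 1 0
  · exact hi 1 1

theorem VPR_comp {E : Type} [TopologicalSpace E] {D : Dyn} (he : ContinuousOn (VPR_e D) {y | |y.1.2| ≤ 1 / 8}) {G : (Fin 10 → ℂ) × ℂ → E}
    (hG : ∀ x ∈ VPR_O, ContinuousAt G x) :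
    ContinuousOn (fun x : ((SL(2, ℝ) × ℝ) × ℝ) × ℍ => G (VPR_e D x.1, (x.2 : ℂ))) {x | |x.1.1.2| ≤ 1 / 8} := by
  intro x hx
  have h1 : ContinuousOn (fun x : ((SL(2, ℝ) × ℝ) × ℝ) × ℍ => (VPR_e D x.1, (x.2 : ℂ))) {x | |x.1.1.2| ≤ 1 / 8} :=
    (he.comp continuous_fst.continuousOn (fun y hy => hy)).prodMk (UpperHalfPlane.continuous_coe.comp continuous_snd).continuousOn
  exact ContinuousAt.comp_continuousWithinAt (f := fun x : ((SL(2, ℝ) × ℝ) × ℝ) × ℍ => (VPR_e D x.1, (x.2 : ℂ))) (g := G) (hG _ (VPR_dom D x.1 x.2)) (h1 x hx)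

theorem VPR_1 {Γ : Subgroup SL(2, ℝ)} {δ : ℝ} {B : ℕ → ℝ} {D : Dyn} (hVUB : VUB_stmt) (hVYA : VYA_stmt) (h : OKD Γ δ B D) (hδ : δ ≤ 1 / 10)
    {ch : ℝ → ℝ} (hch : CH ch) (ζ ζ1 R : ℝ) :
    ContinuousOn (fun x : ((SL(2, ℝ) × ℝ) × ℝ) × ℍ => psi D ch ζ ζ1 R x.1.2 x.1.1 x.2) {x | |x.1.1.2| ≤ 1 / 8} ∧
    ContinuousOn (fun x : ((SL(2, ℝ) × ℝ) × ℝ) × ℍ => QU.lap (psi D ch ζ ζ1 R x.1.2 x.1.1) x.2) {x | |x.1.1.2| ≤ 1 / 8} ∧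
    ContinuousOn (fun x : ((SL(2, ℝ) × ℝ) × ℝ) × ℍ => fderiv ℝ (QU.onC (psi D ch ζ ζ1 R x.1.2 x.1.1)) (x.2 : ℂ)) {x | |x.1.1.2| ≤ 1 / 8} ∧
    ContinuousOn (fun x : ((SL(2, ℝ) × ℝ) × ℝ) × ℍ => fderiv ℝ (fderiv ℝ (QU.onC (psi D ch ζ ζ1 R x.1.2 x.1.1))) (x.2 : ℂ)) {x | |x.1.1.2| ≤ 1 / 8} := by
  have he := VPR_ec hVUB hVYA h hδ
  have h4 : ContinuousOn (fun x : ((SL(2, ℝ) × ℝ) × ℝ) × ℍ => fderiv ℝ (fderiv ℝ (QU.onC (psi D ch ζ ζ1 R x.1.2 x.1.1))) (x.2 : ℂ)) {x | |x.1.1.2| ≤ 1 / 8} := by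
    refine (VPR_comp he (fun x hx => (VPR_D2 hch.smooth (cR ch ζ R) (R ^ (1 - 2 * ζ1)) R hx).continuousAt)).congr fun x hx => ?_
    exact (VPR_onC D ch ζ ζ1 R x.1.2 x.1.1 x.2).fderiv.fderiv_eq
  refine ⟨?_, ?_, ?_, h4⟩
  · refine (VPR_comp he (fun x hx => (VPR_Gs hch.smooth (cR ch ζ R) (R ^ (1 - 2 * ζ1)) R hx).continuousAt)).congr fun x hx => ?_
    exact VPR_psi D ch ζ ζ1 R x.1.2 x.1.1 x.2
  · unfold QU.lap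
    have h5 : Continuous fun x : ((SL(2, ℝ) × ℝ) × ℝ) × ℍ => -(x.2.im ^ 2) := ((UpperHalfPlane.continuous_im.comp continuous_snd).pow 2).neg
    exact h5.continuousOn.smul (((h4.clm_apply continuousOn_const).clm_apply continuousOn_const).add
      ((h4.clm_apply continuousOn_const).clm_apply continuousOn_const))
  · refine (VPR_comp he (fun x hx => (VPR_D1 hch.smooth (cR ch ζ R) (R ^ (1 - 2 * ζ1)) R hx).continuousAt)).congr fun x hx => ?_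
    exact (VPR_onC D ch ζ ζ1 R x.1.2 x.1.1 x.2).fderiv_eq

theorem VPR_5 {Γ : Subgroup SL(2, ℝ)} {δ : ℝ} {B : ℕ → ℝ} {D : Dyn} (hVUB : VUB_stmt) (hVYA : VYA_stmt) (h : OKD Γ δ B D) (hδ : δ ≤ 1 / 10)
    {ch : ℝ → ℝ} (hch : CH ch) (ζ ζ1 R : ℝ) :
    ContinuousOn (fun x : ((SL(2, ℝ) × ℝ) × ℝ) × ℂ => pv D ch ζ ζ1 R x.1.2 x.1.1 x.2) {x | |x.1.1.2| ≤ 1 / 8} := by
  have he := VPR_ec hVUB hVYA h hδ
  have h1 : ContinuousOn (fun x : ((SL(2, ℝ) × ℝ) × ℝ) × ℂ => (VPR_e D x.1, x.2)) {x | |x.1.1.2| ≤ 1 / 8} :=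
    (he.comp continuous_fst.continuousOn (fun y hy => hy)).prodMk continuous_snd.continuousOn
  refine ((VPR_Fs hch.smooth (cR ch ζ R) (R ^ (1 - 2 * ζ1)) R).continuous.comp_continuousOn h1).congr fun x hx => ?_
  exact VPR_pv D ch ζ ζ1 R x.1.2 x.1.1 x.2

end

end Pool.Agent.VQ
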