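import Pool.Agent.helper74.VQ.SpecE
import Pool.Agent.helper21.VQ.VPRb
import Pool.Agent.helper18.VQ.VLP

set_option autoImplicit false

open scoped MatrixGroups ContDiff Topology UpperHalfPlane ComplexConjugate ENNReal
open UpperHalfPlane MeasureTheory Filter Set

namespace Pool.Agent.VQ

open Pool.Agent.RS

theorem VOX_pv (D : Dyn) {ch : ℝ → ℝ} (hch : CH ch) (ζ ζ1 R t : ℝ) (p : SL(2, ℝ) × ℝ) : ContDiff ℝ ∞ (pv D ch ζ ζ1 R t p) := by
  have h1 : pv D ch ζ ζ1 R t p = fun v => VPR_F ch (cR ch ζ R) (R ^ (1 - 2 * ζ1)) R (VPR_e D (p, t), v) := by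
    funext v
    exact VPR_pv D ch ζ ζ1 R t p v
  rw [h1]
  exact (VPR_Fs hch.smooth _ _ _).comp (contDiff_const.prodMk contDiff_id)

theorem VOX_proof : VOX_stmt := by
  have hone : ∀ γ : (⊥ : Subgroup SL(2, ℝ)), (γ : SL(2, ℝ)) = 1 := fun γ => (Subgroup.mem_bot).1 γ.2
  have hact : ∀ (γ : (⊥ : Subgroup SL(2, ℝ))) (z : ℍ), γ • z = z := fun γ z => by
    have h1 : (γ • z : ℍ) = (γ : SL(2, ℝ)) • z := rfl
    rw [h1, hone, one_smul]
  refine ⟨fun Γ δ B D h => ?_, Or.inr ⟨rfl, rfl⟩, fun v hv hb hs => ?_, fun φ hφ hs => ?_, fun R => ?_, ?_⟩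
  · have hpot : Pot ⊥ δ B D.U := ⟨h.pot.smooth, ⟨h.pot.inv.1, fun γ z => by rw [hact]⟩, h.pot.near, h.pot.bd⟩
    exact ⟨hpot, h.fl0, h.out, h.dfl, h.cfl, h.Y0, h.P0, h.S0, h.a0, h.dY, h.dP, h.dS, h.da, h.cY, h.cP, h.cS, h.ca⟩
  · obtain ⟨b, hb⟩ := hb
    obtain ⟨b', hb'⟩ := hs
    exact ⟨hv, ⟨b, hb⟩, fun γ p => by rw [hone, one_mul], ⟨b', fun p _ hp => hb' p hp⟩⟩
  · obtain ⟨b', hb'⟩ := hs
    exact ⟨hφ, fun γ z => by rw [hact], ⟨b', fun z _ hz => hb' z hz⟩⟩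
  · have h1 : dG (univ : Set ℍ) = univ := by
      ext g
      exact ⟨fun _ => mem_univ _, fun _ => mem_univ _⟩
    unfold PW GW
    rw [h1]
  · intro D ch ζ ζ1 R t δ Γ B p hch hζ hζ1 hR h hδ hp hR4
    have hVLP := VLP_proof VCD_proof
    have hs := VOX_pv D hch ζ ζ1 R t p
    have hcd : QU.CD 2 (psi D ch ζ ζ1 R t p) := (hVLP.2 (pv D ch ζ ζ1 R t p) (D.fl p.2 t p.1) (contDiff_infty.1 hs 2)).1
    have hcont : Continuous (psi D ch ζ ζ1 R t p) := hs.continuous.comp (VCD_cont.comp (continuous_const.smul continuous_id))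
    refine ⟨⟨hcont, fun γ z => by rw [hact], ⟨2 + dist (D.fl p.2 t p.1 • I : ℍ) I, fun z _ hz => ?_⟩⟩, hcd⟩
    set g := D.fl p.2 t p.1 with hg
    set v := cd (g⁻¹ • z) with hv
    have h1 : ch (R ^ (1 - 2 * ζ1) * ‖v‖ ^ 2) ≠ 0 := by
      intro h0
      refine hz ?_
      unfold psi pv
      rw [← hg, ← hv, h0]
      simp
    have h2 : R ^ (1 - 2 * ζ1) * ‖v‖ ^ 2 < 1 := by
      by_contra h3
      exact h1 (hch.zero _ (not_lt.1 h3))
    have h3 : 1 ≤ R ^ (1 - 2 * ζ1) := Real.one_le_rpow (by linarith) (by linarith)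
    have h4 : ‖v‖ ≤ 1 := by
      by_contra h5
      push Not at h5
      have h6 : 1 < ‖v‖ ^ 2 := by nlinarith
      nlinarith
    have h5 : dist (g⁻¹ • z) I ≤ 2 * ‖v‖ := VCD_ge (g⁻¹ • z) h4
    have h6 : dist z (g • I : ℍ) = dist (g⁻¹ • z) I := by
      have h7 : dist (g⁻¹ • z) (g⁻¹ • (g • I : ℍ)) = dist z (g • I : ℍ) := dist_smul g⁻¹ z (g • I)
      rw [inv_smul_smul] at h7
      exact h7.symm
    have h8 := dist_triangle z (g • I : ℍ) I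
    rw [h6] at h8
    linarith

end Pool.Agent.VQ
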