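import Pool.Agent.helper21.VQ.VPRc

set_option autoImplicit false

open scoped MatrixGroups ContDiff Topology UpperHalfPlane ComplexConjugate ENNReal
open UpperHalfPlane MeasureTheory Filter Set

namespace Pool.Agent.VQ

open Pool.Agent.RS

noncomputable section

/-- the linear vector field of one column -/
def VPR_v (κ : ℝ) (K : Matrix (Fin 2) (Fin 2) ℂ) (x : Fin 4 → ℂ) : Fin 4 → ℂ :=
  ![x 2 + (κ : ℂ) * x 1, x 3 - (κ : ℂ) * x 0, K 0 0 * x 0 + K 0 1 * x 1 + (κ : ℂ) * x 3, K 1 0 * x 0 + K 1 1 * x 1 - (κ : ℂ) * x 2]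

theorem VPR_vL {κ : ℝ} {K : Matrix (Fin 2) (Fin 2) ℂ} (hκ : |κ| ≤ 1) (hK : ∀ i j, ‖K i j‖ ≤ 2) : LipschitzWith 5 (VPR_v κ K) := by
  refine LipschitzWith.of_dist_le_mul fun x y => ?_
  have hc : ‖((κ : ℝ) : ℂ)‖ ≤ 1 := by
    rw [Complex.norm_real, Real.norm_eq_abs]
    exact hκ
  have hd : ∀ i, ‖x i - y i‖ ≤ dist x y := fun i => by
    rw [← dist_eq_norm]
    exact dist_le_pi_dist x y i
  have hd0 : 0 ≤ dist x y := dist_nonneg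
  have hk : ∀ i, ‖(κ : ℂ) * (x i - y i)‖ ≤ dist x y := fun i => by
    rw [norm_mul]
    calc ‖(κ : ℂ)‖ * ‖x i - y i‖ ≤ 1 * dist x y := mul_le_mul hc (hd i) (norm_nonneg _) zero_le_one
      _ = dist x y := one_mul _
  have hKi : ∀ a b i, ‖K a b * (x i - y i)‖ ≤ 2 * dist x y := fun a b i => by
    rw [norm_mul]
    exact mul_le_mul (hK a b) (hd i) (norm_nonneg _) zero_le_two
  have h5 : ((5 : NNReal) : ℝ) = 5 := rfl
  rw [h5]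
  rw [dist_pi_le_iff (by positivity)]
  intro i
  rw [dist_eq_norm]
  have e0 : VPR_v κ K x 0 - VPR_v κ K y 0 = (x 2 - y 2) + (κ : ℂ) * (x 1 - y 1) := by
    show (x 2 + (κ : ℂ) * x 1) - (y 2 + (κ : ℂ) * y 1) = _
    ring
  have e1 : VPR_v κ K x 1 - VPR_v κ K y 1 = (x 3 - y 3) - (κ : ℂ) * (x 0 - y 0) := by
    show (x 3 - (κ : ℂ) * x 0) - (y 3 - (κ : ℂ) * y 0) = _
    ring
  have e2 : VPR_v κ K x 2 - VPR_v κ K y 2 = K 0 0 * (x 0 - y 0) + K 0 1 * (x 1 - y 1) + (κ : ℂ) * (x 3 - y 3) := by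
    show (K 0 0 * x 0 + K 0 1 * x 1 + (κ : ℂ) * x 3) - (K 0 0 * y 0 + K 0 1 * y 1 + (κ : ℂ) * y 3) = _
    ring
  have e3 : VPR_v κ K x 3 - VPR_v κ K y 3 = K 1 0 * (x 0 - y 0) + K 1 1 * (x 1 - y 1) - (κ : ℂ) * (x 2 - y 2) := by
    show (K 1 0 * x 0 + K 1 1 * x 1 - (κ : ℂ) * x 2) - (K 1 0 * y 0 + K 1 1 * y 1 - (κ : ℂ) * y 2) = _
    ring
  fin_cases i
  · show ‖VPR_v κ K x 0 - VPR_v κ K y 0‖ ≤ _
    rw [e0]
    have h1 := norm_add_le (x 2 - y 2) ((κ : ℂ) * (x 1 - y 1))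
    have h2 := hd 2
    have h3 := hk 1
    linarith
  · show ‖VPR_v κ K x 1 - VPR_v κ K y 1‖ ≤ _
    rw [e1]
    have h1 := norm_sub_le (x 3 - y 3) ((κ : ℂ) * (x 0 - y 0))
    have h2 := hd 3
    have h3 := hk 0
    linarith
  · show ‖VPR_v κ K x 2 - VPR_v κ K y 2‖ ≤ _
    rw [e2]
    have h1 := norm_add_le (K 0 0 * (x 0 - y 0) + K 0 1 * (x 1 - y 1)) ((κ : ℂ) * (x 3 - y 3))
    have h1' := norm_add_le (K 0 0 * (x 0 - y 0)) (K 0 1 * (x 1 - y 1))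
    have h2 := hKi 0 0 0
    have h2' := hKi 0 1 1
    have h3 := hk 3
    linarith
  · show ‖VPR_v κ K x 3 - VPR_v κ K y 3‖ ≤ _
    rw [e3]
    have h1 := norm_sub_le (K 1 0 * (x 0 - y 0) + K 1 1 * (x 1 - y 1)) ((κ : ℂ) * (x 2 - y 2))
    have h1' := norm_add_le (K 1 0 * (x 0 - y 0)) (K 1 1 * (x 1 - y 1))
    have h2 := hKi 1 0 0
    have h2' := hKi 1 1 1
    have h3 := hk 2
    linarith

/-- solutions of the linear system -/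
def VPR_sol (κ : ℝ → ℝ) (K : ℝ → Matrix (Fin 2) (Fin 2) ℂ) (Y P : ℝ → Matrix (Fin 2) (Fin 2) ℂ) : Prop :=
  (∀ t i j, HasDerivAt (fun s => Y s i j) ((P t + ((κ t : ℝ) : ℂ) • (JJ * Y t)) i j) t) ∧
  ∀ t i j, HasDerivAt (fun s => P s i j) ((K t * Y t + ((κ t : ℝ) : ℂ) • (JJ * P t)) i j) t

theorem VPR_J0 (A : Matrix (Fin 2) (Fin 2) ℂ) (j : Fin 2) : (JJ * A) 0 j = A 1 j := by
  rw [Matrix.mul_apply, Fin.sum_univ_two]
  show (0 : ℂ) * A 0 j + 1 * A 1 j = A 1 j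
  ring

theorem VPR_J1 (A : Matrix (Fin 2) (Fin 2) ℂ) (j : Fin 2) : (JJ * A) 1 j = -A 0 j := by
  rw [Matrix.mul_apply, Fin.sum_univ_two]
  show (-1 : ℂ) * A 0 j + 0 * A 1 j = -A 0 j
  ring

def VPR_col (Y P : Matrix (Fin 2) (Fin 2) ℂ) (j : Fin 2) : Fin 4 → ℂ := ![Y 0 j, Y 1 j, P 0 j, P 1 j]

theorem VPR_cold {κ : ℝ → ℝ} {K : ℝ → Matrix (Fin 2) (Fin 2) ℂ} {Y P : ℝ → Matrix (Fin 2) (Fin 2) ℂ} (h : VPR_sol κ K Y P) (j : Fin 2) (t : ℝ) :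
    HasDerivAt (fun s => VPR_col (Y s) (P s) j) (VPR_v (κ t) (K t) (VPR_col (Y t) (P t) j)) t := by
  obtain ⟨h1, h2⟩ := h
  refine hasDerivAt_pi.2 fun i => ?_
  fin_cases i
  · refine (h1 t 0 j).congr_deriv ?_
    show P t 0 j + ((κ t : ℝ) : ℂ) * (JJ * Y t) 0 j = P t 0 j + ((κ t : ℝ) : ℂ) * Y t 1 j
    rw [VPR_J0]
  · refine (h1 t 1 j).congr_deriv ?_
    show P t 1 j + ((κ t : ℝ) : ℂ) * (JJ * Y t) 1 j = P t 1 j - ((κ t : ℝ) : ℂ) * Y t 0 j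
    rw [VPR_J1]
    ring
  · refine (h2 t 0 j).congr_deriv ?_
    show (K t * Y t) 0 j + ((κ t : ℝ) : ℂ) * (JJ * P t) 0 j = K t 0 0 * Y t 0 j + K t 0 1 * Y t 1 j + ((κ t : ℝ) : ℂ) * P t 1 j
    rw [VPR_J0, Matrix.mul_apply, Fin.sum_univ_two]
  · refine (h2 t 1 j).congr_deriv ?_
    show (K t * Y t) 1 j + ((κ t : ℝ) : ℂ) * (JJ * P t) 1 j = K t 1 0 * Y t 0 j + K t 1 1 * Y t 1 j - ((κ t : ℝ) : ℂ) * P t 0 j
    rw [VPR_J1, Matrix.mul_apply, Fin.sum_univ_two]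
    ring

theorem VPR_uniq {κ : ℝ → ℝ} {K : ℝ → Matrix (Fin 2) (Fin 2) ℂ} {Y P Y' P' : ℝ → Matrix (Fin 2) (Fin 2) ℂ} (hκ : ∀ t, |κ t| ≤ 1) (hK : ∀ t i j, ‖K t i j‖ ≤ 2)
    (h : VPR_sol κ K Y P) (h' : VPR_sol κ K Y' P') (hY : Y 0 = Y' 0) (hP : P 0 = P' 0) (t : ℝ) : Y t = Y' t ∧ P t = P' t := by
  have h1 : ∀ j, (fun s => VPR_col (Y s) (P s) j) = fun s => VPR_col (Y' s) (P' s) j := by
    intro j
    refine ODE_solution_unique_univ (v := fun t => VPR_v (κ t) (K t)) (s := fun _ => univ) (K := 5) (t₀ := 0) (fun t => (VPR_vL (hκ t) (hK t)).lipschitzOnWith)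
      (fun t => ⟨VPR_cold h j t, mem_univ _⟩) (fun t => ⟨VPR_cold h' j t, mem_univ _⟩) ?_
    show VPR_col (Y 0) (P 0) j = VPR_col (Y' 0) (P' 0) j
    rw [hY, hP]
  have h2 : ∀ j k, VPR_col (Y t) (P t) j k = VPR_col (Y' t) (P' t) j k := fun j k => congrFun (congrFun (h1 j) t) k
  constructor
  · ext i j
    fin_cases i
    · exact h2 j 0
    · exact h2 j 1
  · ext i j
    fin_cases i
    · exact h2 j 2
    · exact h2 j 3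

end

end Pool.Agent.VQ
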