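import Pool.Agent.helper21.VQ.VPRd
import Pool.Agent.helper21.VQ.VPRe

set_option autoImplicit false

open scoped MatrixGroups ContDiff Topology UpperHalfPlane ComplexConjugate ENNReal
open UpperHalfPlane MeasureTheory Filter Set

namespace Pool.Agent.VQ

open Pool.Agent.RS

noncomputable section

theorem VPR_cst {f g f' : ℝ → ℝ} (hf : ∀ t, HasDerivAt f (f' t) t) (hg : ∀ t, HasDerivAt g (f' t) t) (h0 : f 0 = g 0) (t : ℝ) : f t = g t := by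
  have h1 : ∀ t, HasDerivAt (fun s => f s - g s) 0 t := fun t => ((hf t).sub (hg t)).congr_deriv (sub_self _)
  have h2 := is_const_of_deriv_eq_zero (f := fun s => f s - g s) (fun t => (h1 t).differentiableAt) (fun t => (h1 t).deriv) t 0
  have h3 : f t - g t = f 0 - g 0 := h2
  rw [h0, sub_self] at h3
  exact sub_eq_zero.1 h3

theorem VPR_quo {f g m : ℝ → ℂ} (hf : ∀ t, HasDerivAt f (m t * f t) t) (hg : ∀ t, HasDerivAt g (m t * g t) t) (hn : ∀ t, g t ≠ 0) (h0 : f 0 = g 0) (t : ℝ) : f t = g t := by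
  have h1 : ∀ t, HasDerivAt (fun s => f s / g s) 0 t := fun t => ((hf t).div (hg t) (hn t)).congr_deriv (by
    have : m t * f t * g t - f t * (m t * g t) = 0 := by ring
    rw [this, zero_div])
  have h2 := is_const_of_deriv_eq_zero (f := fun s => f s / g s) (fun t => (h1 t).differentiableAt) (fun t => (h1 t).deriv) t 0
  have h3 : f t / g t = f 0 / g 0 := h2
  rw [h0, div_self (hn 0)] at h3
  exact (div_eq_one_iff_eq (hn t)).1 h3

/-- equivariance of the data -/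
theorem VPR_eqv {Γ : Subgroup SL(2, ℝ)} {δ : ℝ} {B : ℕ → ℝ} {D : Dyn} (hVUB : VUB_stmt) (hVYA : VYA_stmt) (hHFA : HFA_stmt) (h : OKD Γ δ B D) (hδ : δ ≤ 1 / 10)
    (γ : Γ) (E : ℝ) (g : SL(2, ℝ)) (t : ℝ) : D.fl E t ((γ : SL(2, ℝ)) * g) = (γ : SL(2, ℝ)) * D.fl E t g ∧
      D.Y E t ((γ : SL(2, ℝ)) * g) = D.Y E t g ∧ D.P E t ((γ : SL(2, ℝ)) * g) = D.P E t g ∧ D.S E t ((γ : SL(2, ℝ)) * g) = D.S E t g ∧
      D.a E t ((γ : SL(2, ℝ)) * g) = D.a E t g := by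
  by_cases hE : |E| ≤ 1 / 8
  · have hfl : ∀ t, D.fl E t ((γ : SL(2, ℝ)) * g) = (γ : SL(2, ℝ)) * D.fl E t g := fun t => (hHFA Γ δ B D h hδ E 0 t hE g).2.1 γ
    obtain ⟨-, hb, hr, -, hinv, -⟩ := hVUB Γ δ B D.U h.pot hδ
    have hUi : ∀ x : SL(2, ℝ), D.U (((γ : SL(2, ℝ)) * x) • I) = D.U (x • I) := fun x => by
      rw [mul_smul]
      exact h.pot.inv.2 γ (x • I)
    have hKK : ∀ x : SL(2, ℝ), KK D.U E ((γ : SL(2, ℝ)) * x) = KK D.U E x := fun x => by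
      obtain ⟨-, -, -, h4, h5, -⟩ := hinv γ x E
      unfold KK
      rw [h4, h5]
    have hsol : VPR_sol (fun t => kap D.U E (D.fl E t g)) (fun t => KK D.U E (D.fl E t g)) (fun t => D.Y E t g) (fun t => D.P E t g) :=
      ⟨fun t i j => h.dY E t g hE i j, fun t i j => h.dP E t g hE i j⟩
    have hsol' : VPR_sol (fun t => kap D.U E (D.fl E t g)) (fun t => KK D.U E (D.fl E t g)) (fun t => D.Y E t ((γ : SL(2, ℝ)) * g)) (fun t => D.P E t ((γ : SL(2, ℝ)) * g)) := by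
      constructor
      · intro t i j
        have h1 := h.dY E t ((γ : SL(2, ℝ)) * g) hE i j
        rw [hfl t, (hinv γ (D.fl E t g) E).2.2.2.2.2] at h1
        exact h1
      · intro t i j
        have h1 := h.dP E t ((γ : SL(2, ℝ)) * g) hE i j
        rw [hfl t, (hinv γ (D.fl E t g) E).2.2.2.2.2, hKK] at h1
        exact h1
    have hκ : ∀ t, |kap D.U E (D.fl E t g)| ≤ 1 := fun t => ((hr E (D.fl E t g) hE).2.2.2.1).trans (hδ.trans (by norm_num))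
    have hK : ∀ t i j, ‖KK D.U E (D.fl E t g) i j‖ ≤ 2 := by
      intro t i j
      obtain ⟨r1, r2, -⟩ := hr E (D.fl E t g) hE
      have h1 := (hb (D.fl E t g)).2.2.2.1 i j
      have h1' := abs_le.1 (h1.trans hδ)
      unfold KK
      rw [Complex.norm_real, Real.norm_eq_abs, abs_le]
      have h2 : rho D.U E (D.fl E t g) ^ 2 ≤ (6 / 5) ^ 2 := pow_le_pow_left₀ (by linarith) r2 2
      have h3 : 0 ≤ rho D.U E (D.fl E t g) ^ 2 := sq_nonneg _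
      by_cases hij : i = 1 ∧ j = 1
      · rw [if_pos hij]
        constructor <;> linarith [h1'.1, h1'.2]
      · rw [if_neg hij]
        constructor <;> linarith [h1'.1, h1'.2]
    have hYP := VPR_uniq hκ hK hsol' hsol (by
      show D.Y E 0 ((γ : SL(2, ℝ)) * g) = D.Y E 0 g
      rw [h.Y0, h.Y0]) (by
      show D.P E 0 ((γ : SL(2, ℝ)) * g) = D.P E 0 g
      rw [h.P0, h.P0])
    have hM : ∀ t, D.M E t ((γ : SL(2, ℝ)) * g) = D.M E t g := fun t => by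
      have h1 : D.Y E t ((γ : SL(2, ℝ)) * g) = D.Y E t g := (hYP t).1
      have h2 : D.P E t ((γ : SL(2, ℝ)) * g) = D.P E t g := (hYP t).2
      unfold Dyn.M
      rw [h1, h2]
    refine ⟨hfl t, (hYP t).1, (hYP t).2, ?_, ?_⟩
    · refine VPR_cst (f := fun t => D.S E t ((γ : SL(2, ℝ)) * g)) (g := fun t => D.S E t g) (f' := fun t => (rho D.U E (D.fl E t g) ^ 2 + D.U (D.fl E t g • I)) / 2)
        (fun t => ?_) (fun t => h.dS E t g hE) ?_ t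
      · have h1 := h.dS E t ((γ : SL(2, ℝ)) * g) hE
        rw [hfl t, (hinv γ (D.fl E t g) E).2.2.2.2.1, hUi] at h1
        exact h1
      · show D.S E 0 ((γ : SL(2, ℝ)) * g) = D.S E 0 g
        rw [h.S0, h.S0]
    · refine VPR_quo (f := fun t => D.a E t ((γ : SL(2, ℝ)) * g)) (g := fun t => D.a E t g) (m := fun t => -(1 / 2) * Matrix.trace (D.M E t g))
        (fun t => ?_) (fun t => h.da E t g hE) (fun t h0 => ?_) ?_ t
      · have h1 := h.da E t ((γ : SL(2, ℝ)) * g) hE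
        rw [hM t] at h1
        exact h1
      · have h1 := (hVYA Γ δ B D h hδ E t g hE).2.2.2.2.1
        have h0' : D.a E t g = 0 := h0
        rw [h0'] at h1
        simp at h1
      · show D.a E 0 ((γ : SL(2, ℝ)) * g) = D.a E 0 g
        rw [h.a0, h.a0]
  · have hE' : 1 / 8 < |E| := not_le.1 hE
    obtain ⟨a1, a2, a3, a4, a5⟩ := h.out E t ((γ : SL(2, ℝ)) * g) hE'
    obtain ⟨b1, b2, b3, b4, b5⟩ := h.out E t g hE'
    rw [a1, a2, a3, a4, a5, b1, b2, b3, b4, b5]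
    exact ⟨rfl, rfl, rfl, rfl, rfl⟩

theorem VPR_proof (hVRM : VRM_stmt) (hVUB : VUB_stmt) (hVYA : VYA_stmt) (hHFA : HFA_stmt) : VPR_stmt := by
  intro ch ζ ζ1 R δ Γ B D hch hζ hζ1 hR h hδ
  obtain ⟨h1, h2, h3, h4⟩ := VPR_1 hVUB hVYA h hδ hch ζ ζ1 R
  refine ⟨h1, h2, h3, h4, VPR_5 hVUB hVYA h hδ hch ζ ζ1 R, VPR_6 hVRM hVUB hVYA h hδ hch ζ hζ hζ1 hR, fun γ p t => ?_⟩
  have hinv := (hVUB Γ δ B D.U h.pot hδ).2.2.2.2.1
  have hpv : ∀ s, pv D ch ζ ζ1 R s ((γ : SL(2, ℝ)) * p.1, p.2) = pv D ch ζ ζ1 R s p := by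
    intro s
    obtain ⟨e1, e2, e3, e4, e5⟩ := VPR_eqv hVUB hVYA hHFA h hδ γ p.2 p.1 s
    have hM : D.M p.2 s ((γ : SL(2, ℝ)) * p.1) = D.M p.2 s p.1 := by
      unfold Dyn.M
      rw [e2, e3]
    have hrho := (hinv γ (D.fl p.2 s p.1) p.2).2.2.2.2.1
    funext v
    unfold pv
    show ((cR ch ζ R * ch (R ^ (1 - 2 * ζ1) * ‖v‖ ^ 2) : ℝ) : ℂ) * D.a p.2 s ((γ : SL(2, ℝ)) * p.1) *
      Complex.exp (Complex.I * (R : ℂ) * (((D.S p.2 s ((γ : SL(2, ℝ)) * p.1) + rho D.U p.2 (D.fl p.2 s ((γ : SL(2, ℝ)) * p.1)) * v.re : ℝ) : ℂ) +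
        qf (D.M p.2 s ((γ : SL(2, ℝ)) * p.1)) v / 2)) = _
    rw [e5, e4, hM, e1, hrho]
  obtain ⟨e1, e2, e3, e4, e5⟩ := VPR_eqv hVUB hVYA hHFA h hδ γ p.2 p.1 t
  refine ⟨e1, hpv t, ?_, fun z => ?_⟩
  · obtain ⟨i1, -, -, -, i5, i6⟩ := hinv γ (D.fl p.2 t p.1) p.2
    funext v
    have hpv' : ∀ s, pv D ch ζ ζ1 R s ((γ : SL(2, ℝ)) * p.1, p.2) v = pv D ch ζ ζ1 R s p v := fun s => congrFun (hpv s) v
    unfold Er
    show Complex.I * deriv (fun s => pv D ch ζ ζ1 R s ((γ : SL(2, ℝ)) * p.1, p.2) v) t -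
      Complex.I * fderiv ℝ (pv D ch ζ ζ1 R t ((γ : SL(2, ℝ)) * p.1, p.2)) v (XV (rho D.U p.2 (D.fl p.2 t ((γ : SL(2, ℝ)) * p.1))) (kap D.U p.2 (D.fl p.2 t ((γ : SL(2, ℝ)) * p.1))) v) -
      Lg D.U R (D.fl p.2 t ((γ : SL(2, ℝ)) * p.1)) (pv D ch ζ ζ1 R t ((γ : SL(2, ℝ)) * p.1, p.2)) v = _
    simp only [hpv']
    rw [hpv t, e1, i5, i6]
    unfold Lg
    rw [i1]
  · unfold psi
    show pv D ch ζ ζ1 R t ((γ : SL(2, ℝ)) * p.1, p.2) (cd ((D.fl p.2 t ((γ : SL(2, ℝ)) * p.1))⁻¹ • γ • z)) = _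
    have h5 : (((γ : SL(2, ℝ)) * D.fl p.2 t p.1)⁻¹ • (γ • z) : ℍ) = (D.fl p.2 t p.1)⁻¹ • z := by
      have h2 : (γ • z : ℍ) = (γ : SL(2, ℝ)) • z := rfl
      rw [h2, mul_inv_rev, mul_smul, inv_smul_smul]
    rw [hpv t, e1, h5]

end

end Pool.Agent.VQ
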