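import Pool.Agent.helper74.VQ.SpecC
import Pool.Agent.helper40.VQ.VCD

set_option autoImplicit false

open scoped MatrixGroups ContDiff Topology UpperHalfPlane ComplexConjugate ENNReal
open UpperHalfPlane MeasureTheory Filter Set

namespace Pool.Agent.VQ

open Pool.Agent.RS

noncomputable section

/-- the beam with abstract parameters -/
def VPR_F (ch : ℝ → ℝ) (c k R : ℝ) (x : (Fin 10 → ℂ) × ℂ) : ℂ :=
  ((c * ch (k * ‖x.2‖ ^ 2) : ℝ) : ℂ) * x.1 0 *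
    Complex.exp (Complex.I * (R : ℂ) * ((x.1 1 + x.1 2 * ((x.2.re : ℝ) : ℂ)) +
      (x.1 3 * ((x.2.re ^ 2 : ℝ) : ℂ) + x.1 4 * ((x.2.re * x.2.im : ℝ) : ℂ) + x.1 5 * ((x.2.im ^ 2 : ℝ) : ℂ)) / 2))

/-- the disc coordinate with abstract parameters -/
def VPR_m (x : (Fin 10 → ℂ) × ℂ) : ℂ := (x.1 6 * x.2 + x.1 7) / (x.1 8 * x.2 + x.1 9)

def VPR_w (x : (Fin 10 → ℂ) × ℂ) : ℂ := 2 * (VPR_m x - Complex.I) / (VPR_m x + Complex.I)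

def VPR_G (ch : ℝ → ℝ) (c k R : ℝ) (x : (Fin 10 → ℂ) × ℂ) : ℂ := VPR_F ch c k R (x.1, VPR_w x)

theorem VPR_Fs {ch : ℝ → ℝ} (hch : ContDiff ℝ ∞ ch) (c k R : ℝ) : ContDiff ℝ ∞ (VPR_F ch c k R) := by
  have hre : ContDiff ℝ ∞ (fun x : (Fin 10 → ℂ) × ℂ => x.2.re) := Complex.reCLM.contDiff.comp contDiff_snd
  have him : ContDiff ℝ ∞ (fun x : (Fin 10 → ℂ) × ℂ => x.2.im) := Complex.imCLM.contDiff.comp contDiff_snd
  have hof : ∀ {f : (Fin 10 → ℂ) × ℂ → ℝ}, ContDiff ℝ ∞ f → ContDiff ℝ ∞ (fun x => ((f x : ℝ) : ℂ)) :=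
    fun hf => Complex.ofRealCLM.contDiff.comp hf
  have he : ∀ i, ContDiff ℝ ∞ (fun x : (Fin 10 → ℂ) × ℂ => x.1 i) := fun i => (contDiff_apply ℝ ℂ i).comp contDiff_fst
  have hn : ContDiff ℝ ∞ (fun x : (Fin 10 → ℂ) × ℂ => ‖x.2‖ ^ 2) := (contDiff_norm_sq ℝ).comp contDiff_snd
  unfold VPR_F
  refine ContDiff.mul (ContDiff.mul (hof (contDiff_const.mul (hch.comp (contDiff_const.mul hn)))) (he 0)) ?_
  refine (Complex.contDiff_exp).comp ?_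
  refine ContDiff.mul contDiff_const (ContDiff.add ((he 1).add ((he 2).mul (hof hre))) ?_)
  refine ContDiff.div_const ?_ 2
  exact (((he 3).mul (hof (hre.pow 2))).add ((he 4).mul (hof (hre.mul him)))).add ((he 5).mul (hof (him.pow 2)))

/-- the domain of smoothness -/
def VPR_O : Set ((Fin 10 → ℂ) × ℂ) := {x | x.1 8 * x.2 + x.1 9 ≠ 0 ∧ VPR_m x + Complex.I ≠ 0}

theorem VPR_ms {x : (Fin 10 → ℂ) × ℂ} (hx : x.1 8 * x.2 + x.1 9 ≠ 0) : ContDiffAt ℝ ∞ VPR_m x := by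
  have he : ∀ i, ContDiff ℝ ∞ (fun x : (Fin 10 → ℂ) × ℂ => x.1 i) := fun i => (contDiff_apply ℝ ℂ i).comp contDiff_fst
  have h1 : ContDiffAt ℝ ∞ (fun x : (Fin 10 → ℂ) × ℂ => x.1 6 * x.2 + x.1 7) x := (((he 6).mul contDiff_snd).add (he 7)).contDiffAt
  have h2 : ContDiffAt ℝ ∞ (fun x : (Fin 10 → ℂ) × ℂ => x.1 8 * x.2 + x.1 9) x := (((he 8).mul contDiff_snd).add (he 9)).contDiffAt
  exact h1.mul (h2.inv hx)

theorem VPR_ws {x : (Fin 10 → ℂ) × ℂ} (hx : x ∈ VPR_O) : ContDiffAt ℝ ∞ VPR_w x := by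
  have h1 := VPR_ms hx.1
  have h2 : ContDiffAt ℝ ∞ (fun x : (Fin 10 → ℂ) × ℂ => 2 * (VPR_m x - Complex.I)) x := contDiffAt_const.mul (h1.sub contDiffAt_const)
  have h3 : ContDiffAt ℝ ∞ (fun x : (Fin 10 → ℂ) × ℂ => VPR_m x + Complex.I) x := h1.add contDiffAt_const
  exact h2.mul (h3.inv hx.2)

theorem VPR_Gs {ch : ℝ → ℝ} (hch : ContDiff ℝ ∞ ch) (c k R : ℝ) {x : (Fin 10 → ℂ) × ℂ} (hx : x ∈ VPR_O) :
    ContDiffAt ℝ ∞ (VPR_G ch c k R) x := by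
  unfold VPR_G
  exact (VPR_Fs hch c k R).contDiffAt.comp x (contDiffAt_fst.prodMk (VPR_ws hx))

/-- partial derivative -/
theorem VPR_D {E : Type} [NormedAddCommGroup E] [NormedSpace ℝ E] {G : (Fin 10 → ℂ) × ℂ → E} {x : (Fin 10 → ℂ) × ℂ}
    (hG : ContDiffAt ℝ ∞ G x) : ContDiffAt ℝ ∞ (fun y : (Fin 10 → ℂ) × ℂ => fderiv ℝ (fun w : ℂ => G (y.1, w)) y.2) x := by
  refine ContDiffAt.fderiv (f := fun (y : (Fin 10 → ℂ) × ℂ) (w : ℂ) => G (y.1, w)) (g := fun y => y.2) (n := ∞) ?_ contDiffAt_snd (by simp)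
  have h1 : ContDiffAt ℝ ∞ (fun z : ((Fin 10 → ℂ) × ℂ) × ℂ => (z.1.1, z.2)) (x, x.2) := (contDiff_fst.fst.prodMk contDiff_snd).contDiffAt
  exact ContDiffAt.comp (x, x.2) (g := G) hG h1

theorem VPR_D1 {ch : ℝ → ℝ} (hch : ContDiff ℝ ∞ ch) (c k R : ℝ) {x : (Fin 10 → ℂ) × ℂ} (hx : x ∈ VPR_O) :
    ContDiffAt ℝ ∞ (fun y : (Fin 10 → ℂ) × ℂ => fderiv ℝ (fun w : ℂ => VPR_G ch c k R (y.1, w)) y.2) x :=
  VPR_D (VPR_Gs hch c k R hx)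

theorem VPR_D2 {ch : ℝ → ℝ} (hch : ContDiff ℝ ∞ ch) (c k R : ℝ) {x : (Fin 10 → ℂ) × ℂ} (hx : x ∈ VPR_O) :
    ContDiffAt ℝ ∞ (fun y : (Fin 10 → ℂ) × ℂ => fderiv ℝ (fderiv ℝ (fun w : ℂ => VPR_G ch c k R (y.1, w))) y.2) x :=
  VPR_D (VPR_D1 hch c k R hx)

end

end Pool.Agent.VQ
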