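import Pool.Agent.helper21.VQ.VPRb

set_option autoImplicit false

open scoped MatrixGroups ContDiff Topology UpperHalfPlane ComplexConjugate ENNReal
open UpperHalfPlane MeasureTheory Filter Set

namespace Pool.Agent.VQ

open Pool.Agent.RS

noncomputable section

theorem VPR_Uc {U : ℍ → ℝ} (hU : QU.CD ∞ U) : Continuous U := by
  have h1 : U = fun z : ℍ => QU.onC U (z : ℂ) := by
    funext z
    unfold QU.onC
    rw [ofComplex_apply]
  rw [h1]
  exact (ContDiffOn.continuousOn hU).comp_continuous UpperHalfPlane.continuous_coe (fun z => z.im_pos)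

theorem VPR_qf {X : Type} [TopologicalSpace X] {s : Set X} {A : X → Matrix (Fin 2) (Fin 2) ℂ} {v : X → ℂ} (hA : ∀ i j, ContinuousOn (fun x => A x i j) s)
    (hv : ContinuousOn v s) : ContinuousOn (fun x => qf (A x) (v x)) s := by
  unfold qf
  have h1 := hA 0 0
  have h2 := hA 0 1
  have h3 := hA 1 0
  have h4 := hA 1 1
  fun_prop

theorem VPR_XV {X : Type} [TopologicalSpace X] {s : Set X} {r k : X → ℝ} {v : X → ℂ} (hr : ContinuousOn r s) (hk : ContinuousOn k s)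
    (hv : ContinuousOn v s) : ContinuousOn (fun x => XV (r x) (k x) (v x)) s := by
  unfold XV
  fun_prop

theorem VPR_cm {X : Type} [TopologicalSpace X] {s : Set X} {M N : X → Matrix (Fin 2) (Fin 2) ℂ} {k : X → ℝ} (hM : ∀ i j, ContinuousOn (fun x => M x i j) s)
    (hN : ∀ i j, ContinuousOn (fun x => N x i j) s) (hk : ContinuousOn k s) (i j : Fin 2) :
    ContinuousOn (fun x => (N x - M x * M x + ((k x : ℝ) : ℂ) • (JJ * M x - M x * JJ)) i j) s := by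
  simp only [Matrix.add_apply, Matrix.sub_apply, Matrix.smul_apply, smul_eq_mul, Matrix.mul_apply, Fin.sum_univ_two]
  have h1 := hM 0 0
  have h2 := hM 0 1
  have h3 := hM 1 0
  have h4 := hM 1 1
  have h5 := hN i j
  have hi : ∀ j, ContinuousOn (fun x => M x i j) s := fun j => hM i j
  have hj : ∀ i, ContinuousOn (fun x => M x i j) s := fun i => hM i j
  have hi0 := hi 0
  have hi1 := hi 1
  have hj0 := hj 0
  have hj1 := hj 1
  fun_prop

/-- the remainder with abstract parameters -/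
def VPR_q (r k u nn ug : ℝ) (M N : Matrix (Fin 2) (Fin 2) ℂ) (v : ℂ) : ℂ :=
  -((((r ^ 2 + u) / 2 + nn / 2 * v.re : ℝ) : ℂ) + qf (N - M * M + (k : ℂ) • (JJ * M - M * JJ)) v / 2) +
    (((XV r k v).re : ℝ) : ℂ) * ((r : ℂ) + M 0 0 * (v.re : ℂ) + M 0 1 * (v.im : ℂ)) +
    (((XV r k v).im : ℝ) : ℂ) * (M 1 0 * (v.re : ℂ) + M 1 1 * (v.im : ℂ)) -
    (((1 - ‖v‖ ^ 2 / 4) ^ 2 / 2 : ℝ) : ℂ) * (((r : ℂ) + M 0 0 * (v.re : ℂ) + M 0 1 * (v.im : ℂ)) ^ 2 + (M 1 0 * (v.re : ℂ) + M 1 1 * (v.im : ℂ)) ^ 2) +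
    ((ug / 2 : ℝ) : ℂ)

theorem VPR_r3 (D : Dyn) (t : ℝ) (p : SL(2, ℝ) × ℝ) (v : ℂ) : r3 D t p v =
    VPR_q (rho D.U p.2 (D.fl p.2 t p.1)) (kap D.U p.2 (D.fl p.2 t p.1)) (D.U (D.fl p.2 t p.1 • I)) (n1 D.U (D.fl p.2 t p.1))
      (Ug D.U (D.fl p.2 t p.1) v) (D.M p.2 t p.1) (KK D.U p.2 (D.fl p.2 t p.1)) v := rfl

theorem VPR_qc {X : Type} [TopologicalSpace X] {s : Set X} {M N : X → Matrix (Fin 2) (Fin 2) ℂ} {r k u nn ug : X → ℝ} {v : X → ℂ}
    (hM : ∀ i j, ContinuousOn (fun x => M x i j) s) (hN : ∀ i j, ContinuousOn (fun x => N x i j) s) (hr : ContinuousOn r s) (hk : ContinuousOn k s)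
    (hu : ContinuousOn u s) (hnn : ContinuousOn nn s) (hug : ContinuousOn ug s) (hv : ContinuousOn v s) :
    ContinuousOn (fun x => VPR_q (r x) (k x) (u x) (nn x) (ug x) (M x) (N x) (v x)) s := by
  unfold VPR_q
  have h1 := hM 0 0
  have h2 := hM 0 1
  have h3 := hM 1 0
  have h4 := hM 1 1
  have h5 := VPR_qf (VPR_cm hM hN hk) hv
  have h6 := VPR_XV hr hk hv
  have h7 : ContinuousOn (fun x => (((XV (r x) (k x) (v x)).re : ℝ) : ℂ)) s := Complex.continuous_ofReal.comp_continuousOn (Complex.continuous_re.comp_continuousOn h6)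
  have h8 : ContinuousOn (fun x => (((XV (r x) (k x) (v x)).im : ℝ) : ℂ)) s := Complex.continuous_ofReal.comp_continuousOn (Complex.continuous_im.comp_continuousOn h6)
  have h9 : ContinuousOn (fun x => ((((r x) ^ 2 + u x) / 2 + nn x / 2 * (v x).re : ℝ) : ℂ)) s := by fun_prop
  have h10 : ContinuousOn (fun x => ((r x : ℝ) : ℂ) + M x 0 0 * ((v x).re : ℂ) + M x 0 1 * ((v x).im : ℂ)) s := by fun_prop
  have h11 : ContinuousOn (fun x => M x 1 0 * ((v x).re : ℂ) + M x 1 1 * ((v x).im : ℂ)) s := by fun_prop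
  have h12 : ContinuousOn (fun x => (((1 - ‖v x‖ ^ 2 / 4) ^ 2 / 2 : ℝ) : ℂ)) s := by fun_prop
  have h13 : ContinuousOn (fun x => ((ug x / 2 : ℝ) : ℂ)) s := by fun_prop
  exact ((((h9.add (h5.div_const 2)).neg.add (h7.mul h10)).add (h8.mul h11)).sub (h12.mul ((h10.pow 2).add (h11.pow 2)))).add h13

/-- the cut-off -/
def VPR_X (ch : ℝ → ℝ) (k : ℝ) (w : ℂ) : ℂ := ((ch (k * ‖w‖ ^ 2) : ℝ) : ℂ)

theorem VPR_Xs {ch : ℝ → ℝ} (hch : ContDiff ℝ ∞ ch) (k : ℝ) : ContDiff ℝ ∞ (VPR_X ch k) :=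
  Complex.ofRealCLM.contDiff.comp (hch.comp (contDiff_const.mul (contDiff_norm_sq ℝ)))

/-- the error with abstract parameters -/
def VPR_Q (c R : ℝ) (a e X lX q : ℂ) (dX : ℂ →L[ℝ] ℂ) (r k : ℝ) (M : Matrix (Fin 2) (Fin 2) ℂ) (v : ℂ) : ℂ :=
  (c : ℂ) * a * e * (X * ((R : ℂ) * q + Complex.I / 2 * (M 0 0 + M 1 1) * (((1 - ‖v‖ ^ 2 / 4) ^ 2 - 1 : ℝ) : ℂ)) -
    Complex.I * dX (XV r k v) + (((1 - ‖v‖ ^ 2 / 4) ^ 2 : ℝ) : ℂ) * (lX / (2 * (R : ℂ)) +
      Complex.I * (dX 1 * ((r : ℂ) + M 0 0 * (v.re : ℂ) + M 0 1 * (v.im : ℂ)) + dX Complex.I * (M 1 0 * (v.re : ℂ) + M 1 1 * (v.im : ℂ)))))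

theorem VPR_Qc {X : Type} [TopologicalSpace X] {s : Set X} (c R : ℝ) {a e X' lX q : X → ℂ} {dX : X → ℂ →L[ℝ] ℂ} {M : X → Matrix (Fin 2) (Fin 2) ℂ} {r k : X → ℝ} {v : X → ℂ}
    (hM : ∀ i j, ContinuousOn (fun x => M x i j) s) (hr : ContinuousOn r s) (hk : ContinuousOn k s)
    (ha : ContinuousOn a s) (he : ContinuousOn e s) (hX : ContinuousOn X' s) (hl : ContinuousOn lX s) (hq : ContinuousOn q s) (hd : ContinuousOn dX s)
    (hv : ContinuousOn v s) :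
    ContinuousOn (fun x => VPR_Q c R (a x) (e x) (X' x) (lX x) (q x) (dX x) (r x) (k x) (M x) (v x)) s := by
  unfold VPR_Q
  have h1 := hM 0 0
  have h2 := hM 0 1
  have h3 := hM 1 0
  have h4 := hM 1 1
  have h6 := hd.clm_apply (VPR_XV hr hk hv)
  have h7 : ContinuousOn (fun x => dX x 1) s := hd.clm_apply continuousOn_const
  have h8 : ContinuousOn (fun x => dX x Complex.I) s := hd.clm_apply continuousOn_const
  have h10 : ContinuousOn (fun x => ((r x : ℝ) : ℂ) + M x 0 0 * ((v x).re : ℂ) + M x 0 1 * ((v x).im : ℂ)) s := by fun_prop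
  have h11 : ContinuousOn (fun x => M x 1 0 * ((v x).re : ℂ) + M x 1 1 * ((v x).im : ℂ)) s := by fun_prop
  have h12 : ContinuousOn (fun x => (((1 - ‖v x‖ ^ 2 / 4) ^ 2 : ℝ) : ℂ)) s := by fun_prop
  have h13 : ContinuousOn (fun x => (R : ℂ) * q x + Complex.I / 2 * (M x 0 0 + M x 1 1) * (((1 - ‖v x‖ ^ 2 / 4) ^ 2 - 1 : ℝ) : ℂ)) s := by fun_prop
  have h14 : ContinuousOn (fun x => (c : ℂ) * a x * e x) s := (continuousOn_const.mul ha).mul he
  exact h14.mul (((hX.mul h13).sub (continuousOn_const.mul h6)).add (h12.mul ((hl.div_const _).add (continuousOn_const.mul ((h7.mul h10).add (h8.mul h11))))))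

end

end Pool.Agent.VQ
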