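import Pool.Agent.helper21.VQ.VPRc

set_option autoImplicit false

open scoped MatrixGroups ContDiff Topology UpperHalfPlane ComplexConjugate ENNReal
open UpperHalfPlane MeasureTheory Filter Set

namespace Pool.Agent.VQ

open Pool.Agent.RS

noncomputable section

theorem VPR_Er (hVRM : VRM_stmt) {ch : ℝ → ℝ} {ζ ζ1 R δ : ℝ} {Γ : Subgroup SL(2, ℝ)} {B : ℕ → ℝ} {D : Dyn} (hch : CH ch) (hζ : 0 < ζ1) (hζ1 : ζ1 ≤ 1 / 8) (hR : 2 ≤ R)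
    (h : OKD Γ δ B D) (hδ : δ ≤ 1 / 10) (p : SL(2, ℝ) × ℝ) (hp : |p.2| ≤ 1 / 8) (t : ℝ) (v : ℂ) : Er D ch ζ ζ1 R t p v =
    VPR_Q (cR ch ζ R) R (D.a p.2 t p.1) (Complex.exp (Complex.I * (R : ℂ) * (((D.S p.2 t p.1 + rho D.U p.2 (D.fl p.2 t p.1) * v.re : ℝ) : ℂ) + qf (D.M p.2 t p.1) v / 2)))
      (VPR_X ch (R ^ (1 - 2 * ζ1)) v) (lp2 (VPR_X ch (R ^ (1 - 2 * ζ1))) v) (r3 D t p v) (fderiv ℝ (VPR_X ch (R ^ (1 - 2 * ζ1))) v)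
      (rho D.U p.2 (D.fl p.2 t p.1)) (kap D.U p.2 (D.fl p.2 t p.1)) (D.M p.2 t p.1) v :=
  (hVRM ch ζ ζ1 R δ Γ B D p t hch hζ hζ1 hR h hδ hp).1 v

theorem VPR_z0 {ch : ℝ → ℝ} (hch : CH ch) {k : ℝ} {v : ℂ} (hv : 1 < k * ‖v‖ ^ 2) : VPR_X ch k v = 0 ∧ fderiv ℝ (VPR_X ch k) v = 0 ∧ lp2 (VPR_X ch k) v = 0 := by
  have h1 : VPR_X ch k =ᶠ[𝓝 v] fun _ => 0 := by
    have h2 : {w : ℂ | 1 < k * ‖w‖ ^ 2} ∈ 𝓝 v := (isOpen_lt continuous_const (by fun_prop)).mem_nhds hv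
    filter_upwards [h2] with w hw
    unfold VPR_X
    rw [hch.zero _ (le_of_lt hw)]
    rfl
  have h3 := h1.fderiv (𝕜 := ℝ)
  have h4 := h3.fderiv_eq (𝕜 := ℝ)
  refine ⟨h1.eq_of_nhds, ?_, ?_⟩
  · rw [h3.eq_of_nhds]
    simp
  · unfold lp2
    rw [h4]
    simp

theorem VPR_Q0 (c R : ℝ) (a e q : ℂ) (r k : ℝ) (M : Matrix (Fin 2) (Fin 2) ℂ) (v : ℂ) : VPR_Q c R a e 0 0 q 0 r k M v = 0 := by
  unfold VPR_Q
  simp

theorem VPR_6 {Γ : Subgroup SL(2, ℝ)} {δ : ℝ} {B : ℕ → ℝ} {D : Dyn} (hVRM : VRM_stmt) (hVUB : VUB_stmt) (hVYA : VYA_stmt) (h : OKD Γ δ B D) (hδ : δ ≤ 1 / 10)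
    {ch : ℝ → ℝ} (hch : CH ch) (ζ : ℝ) {ζ1 R : ℝ} (hζ : 0 < ζ1) (hζ1 : ζ1 ≤ 1 / 8) (hR : 2 ≤ R) :
    ContinuousOn (fun x : ((SL(2, ℝ) × ℝ) × ℝ) × ℂ => Er D ch ζ ζ1 R x.1.2 x.1.1 x.2) {x | |x.1.1.2| ≤ 1 / 8} := by
  set k : ℝ := R ^ (1 - 2 * ζ1) with hk
  have hk1 : 1 < k := Real.one_lt_rpow (by linarith) (by linarith)
  intro x hx
  by_cases hv : ‖x.2‖ < 1
  · -- the formula
    have hs : {x : ((SL(2, ℝ) × ℝ) × ℝ) × ℂ | |x.1.1.2| ≤ 1 / 8 ∧ ‖x.2‖ < 1} ∈ 𝓝[{x | |x.1.1.2| ≤ 1 / 8}] x := by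
      have h2 : {x : ((SL(2, ℝ) × ℝ) × ℝ) × ℂ | ‖x.2‖ < 1} ∈ 𝓝 x := (isOpen_lt (by fun_prop) continuous_const).mem_nhds hv
      filter_upwards [self_mem_nhdsWithin, mem_nhdsWithin_of_mem_nhds h2] with y hy1 hy2
      exact ⟨hy1, hy2⟩
    refine ContinuousWithinAt.mono_of_mem_nhdsWithin ?_ hs
    refine ContinuousOn.continuousWithinAt ?_ ⟨hx, hv⟩
    clear hs
    set s : Set (((SL(2, ℝ) × ℝ) × ℝ) × ℂ) := {x : ((SL(2, ℝ) × ℝ) × ℝ) × ℂ | |x.1.1.2| ≤ 1 / 8 ∧ ‖x.2‖ < 1} with hs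
    have hlift : ∀ {E : Type} [TopologicalSpace E] (f : (SL(2, ℝ) × ℝ) × ℝ → E), ContinuousOn f {y | |y.1.2| ≤ 1 / 8} → ContinuousOn (fun x : ((SL(2, ℝ) × ℝ) × ℝ) × ℂ => f x.1) s :=
      fun f hf => VPR_cpo f (fun x : ((SL(2, ℝ) × ℝ) × ℝ) × ℂ => x.1) s {y | |y.1.2| ≤ 1 / 8} hf continuous_fst.continuousOn (fun x hx => hx.1)
    have hV : ContinuousOn (fun x : ((SL(2, ℝ) × ℝ) × ℝ) × ℂ => x.2) s := continuous_snd.continuousOn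
    have hfl := hlift _ (VPR_fl h)
    have hM : ∀ i j, ContinuousOn (fun x : ((SL(2, ℝ) × ℝ) × ℝ) × ℂ => D.M x.1.1.2 x.1.2 x.1.1.1 i j) s := fun i j => hlift _ (VPR_M hVYA h hδ i j)
    have hr := hlift _ (VPR_rho hVUB h hδ)
    have hkp := hlift _ (VPR_kap hVUB h hδ)
    have ha := hlift _ (VPR_a h)
    have hS := hlift _ (VPR_S h)
    have hX := (VPR_Xs hch.smooth k).continuous.comp_continuousOn hV
    have hd1 : Continuous (fderiv ℝ (VPR_X ch k)) := (VPR_Xs hch.smooth k).continuous_fderiv (by simp)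
    have hd2 : Continuous (fderiv ℝ (fderiv ℝ (VPR_X ch k))) :=
      ((VPR_Xs hch.smooth k).fderiv_right (m := ∞) (by simp)).continuous_fderiv (by simp)
    have hdX := hd1.comp_continuousOn hV
    have hlc : Continuous (lp2 (VPR_X ch k)) := by
      unfold lp2
      exact ((hd2.clm_apply continuous_const).clm_apply continuous_const).add ((hd2.clm_apply continuous_const).clm_apply continuous_const)
    have hlX := hlc.comp_continuousOn hV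
    obtain ⟨-, -, -, ⟨hn1, -, hhess, -⟩, -⟩ := hVUB Γ δ B D.U h.pot hδ
    have hUc : Continuous D.U := VPR_Uc h.pot.smooth
    have hu : ContinuousOn (fun x : ((SL(2, ℝ) × ℝ) × ℝ) × ℂ => D.U (D.fl x.1.1.2 x.1.2 x.1.1.1 • I)) s :=
      VPR_cpc (fun g : SL(2, ℝ) => D.U (g • I)) (fun x : ((SL(2, ℝ) × ℝ) × ℝ) × ℂ => D.fl x.1.1.2 x.1.2 x.1.1.1) s
        (hUc.comp (continuous_id.smul continuous_const)) hfl
    have hnn : ContinuousOn (fun x : ((SL(2, ℝ) × ℝ) × ℝ) × ℂ => n1 D.U (D.fl x.1.1.2 x.1.2 x.1.1.1)) s :=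
      VPR_cpc (n1 D.U) (fun x : ((SL(2, ℝ) × ℝ) × ℝ) × ℂ => D.fl x.1.1.2 x.1.2 x.1.1.1) s hn1 hfl
    have hh : ∀ i j, ContinuousOn (fun x : ((SL(2, ℝ) × ℝ) × ℝ) × ℂ => hess D.U (D.fl x.1.1.2 x.1.2 x.1.1.1) i j) s := fun i j =>
      VPR_cpc (fun g : SL(2, ℝ) => hess D.U g i j) (fun x : ((SL(2, ℝ) × ℝ) × ℝ) × ℂ => D.fl x.1.1.2 x.1.2 x.1.1.1) s (hhess i j) hfl
    have hN : ∀ i j, ContinuousOn (fun x : ((SL(2, ℝ) × ℝ) × ℝ) × ℂ => KK D.U x.1.1.2 (D.fl x.1.1.2 x.1.2 x.1.1.1) i j) s := by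
      intro i j
      unfold KK
      refine VPR_cpc (fun r : ℝ => (r : ℂ)) _ s Complex.continuous_ofReal ?_
      refine ((hh i j).div_const 2).add ?_
      by_cases hij : i = 1 ∧ j = 1
      · simp only [hij, if_true, and_self]
        exact hr.pow 2
      · simp only [hij, if_false]
        exact continuousOn_const
    have hug : ContinuousOn (fun x : ((SL(2, ℝ) × ℝ) × ℝ) × ℂ => Ug D.U (D.fl x.1.1.2 x.1.2 x.1.1.1) x.2) s := by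
      unfold Ug
      have h5 : ContinuousOn (fun x : ((SL(2, ℝ) × ℝ) × ℝ) × ℂ => cdi x.2) s :=
        VPR_cpo cdi (fun x : ((SL(2, ℝ) × ℝ) × ℝ) × ℂ => x.2) s (Metric.ball 0 2) VCD_contOn hV (fun x hx => by
          rw [mem_ball_zero_iff]
          exact hx.2.trans (by norm_num))
      exact VPR_cpc D.U _ s hUc (hfl.smul h5)
    have hq : ContinuousOn (fun x : ((SL(2, ℝ) × ℝ) × ℝ) × ℂ => r3 D x.1.2 x.1.1 x.2) s := by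
      simp only [VPR_r3]
      exact VPR_qc hM hN hr hkp hu hnn hug hV
    have hex : ContinuousOn (fun x : ((SL(2, ℝ) × ℝ) × ℝ) × ℂ => Complex.exp (Complex.I * (R : ℂ) *
        (((D.S x.1.1.2 x.1.2 x.1.1.1 + rho D.U x.1.1.2 (D.fl x.1.1.2 x.1.2 x.1.1.1) * x.2.re : ℝ) : ℂ) + qf (D.M x.1.1.2 x.1.2 x.1.1.1) x.2 / 2))) s := by
      have h5 := VPR_qf hM hV
      have h6 : ContinuousOn (fun x : ((SL(2, ℝ) × ℝ) × ℝ) × ℂ => D.S x.1.1.2 x.1.2 x.1.1.1 + rho D.U x.1.1.2 (D.fl x.1.1.2 x.1.2 x.1.1.1) * x.2.re) s :=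
        hS.add (hr.mul (Complex.continuous_re.comp_continuousOn hV))
      have h7 := Complex.continuous_ofReal.comp_continuousOn h6
      exact Complex.continuous_exp.comp_continuousOn (continuousOn_const.mul (h7.add (h5.div_const 2)))
    refine (VPR_Qc (cR ch ζ R) R hM hr hkp ha hex hX hlX hq hdX hV).congr fun x hx => ?_
    exact VPR_Er hVRM hch hζ hζ1 hR h hδ x.1.1 hx.1 x.1.2 x.2
  · -- zero
    have h0 : ∀ y ∈ {x : ((SL(2, ℝ) × ℝ) × ℝ) × ℂ | |x.1.1.2| ≤ 1 / 8}, 1 < k * ‖y.2‖ ^ 2 → Er D ch ζ ζ1 R y.1.2 y.1.1 y.2 = 0 := by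
      intro y hy hy1
      obtain ⟨h1, h2, h3⟩ := VPR_z0 hch hy1
      rw [VPR_Er hVRM hch hζ hζ1 hR h hδ y.1.1 hy y.1.2 y.2, h1, h2, h3]
      exact VPR_Q0 _ _ _ _ _ _ _ _ _
    have hv1 : 1 < k * ‖x.2‖ ^ 2 := by
      have h5 : 1 ≤ ‖x.2‖ := not_lt.1 hv
      have h6 : 1 ≤ ‖x.2‖ ^ 2 := one_le_pow₀ h5
      nlinarith
    have h7 : {x : ((SL(2, ℝ) × ℝ) × ℝ) × ℂ | 1 < k * ‖x.2‖ ^ 2} ∈ 𝓝 x := (isOpen_lt continuous_const (by fun_prop)).mem_nhds hv1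
    refine ContinuousWithinAt.congr_of_eventuallyEq (f := fun _ => (0 : ℂ)) continuousWithinAt_const ?_ (h0 x hx hv1)
    filter_upwards [self_mem_nhdsWithin, mem_nhdsWithin_of_mem_nhds h7] with y hy1 hy2
    exact h0 y hy1 hy2

end

end Pool.Agent.VQ
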